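import Mathlib

set_option autoImplicit false

/-! Linear ordinary differential equations with bounded coefficients, depending holomorphically on
a parameter. -/

namespace Pool.Agent.H751R3.Fq

open MeasureTheory Set Filter Topology BoundedContinuousFunction

variable {F : Type} [NormedAddCommGroup F] [NormedSpace ℂ F]

theorem int_exp {k : ℝ} (hk : 0 < k) (x : ℝ) :
    |∫ t in (0 : ℝ)..x, Real.exp (k * |t|)| ≤ Real.exp (k * |x|) / k := by
  have key : ∀ x : ℝ, 0 ≤ x → ∫ t in (0 : ℝ)..x, Real.exp (k * |t|) = (Real.exp (k * x) - 1) / k := by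
    intro x hx
    have h1 : ∫ t in (0 : ℝ)..x, Real.exp (k * |t|) = ∫ t in (0 : ℝ)..x, Real.exp (k * t) := by
      apply intervalIntegral.integral_congr
      intro t ht
      rw [uIcc_of_le hx] at ht
      simp only [abs_of_nonneg ht.1]
    rw [h1]
    have h3 : ∫ t in (0 : ℝ)..x, Real.exp (k * t) = Real.exp (k * x) / k - Real.exp (k * 0) / k := by
      apply intervalIntegral.integral_eq_sub_of_hasDerivAt (f := fun t => Real.exp (k * t) / k)
      · intro t _
        have h4 : HasDerivAt (fun t : ℝ => k * t) (k * 1) t := (hasDerivAt_id t).const_mul k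
        have h5 := h4.exp.div_const k
        have h6 : Real.exp (k * t) * (k * 1) / k = Real.exp (k * t) := by field_simp
        rwa [h6] at h5
      · exact (by fun_prop : Continuous fun t : ℝ => Real.exp (k * t)).intervalIntegrable _ _
    rw [h3, mul_zero, Real.exp_zero]
    ring
  have habs : |∫ t in (0 : ℝ)..x, Real.exp (k * |t|)| = (Real.exp (k * |x|) - 1) / k := by
    have hexp : ∀ y : ℝ, 0 ≤ y → 0 ≤ (Real.exp (k * y) - 1) / k := by
      intro y hy
      have : 1 ≤ Real.exp (k * y) := Real.one_le_exp (by positivity)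
      exact div_nonneg (by linarith) hk.le
    rcases le_total 0 x with h | h
    · rw [key x h, abs_of_nonneg h, abs_of_nonneg (hexp x h)]
    · have h1 : ∫ t in (0 : ℝ)..x, Real.exp (k * |t|) =
          -∫ t in (0 : ℝ)..(-x), Real.exp (k * |t|) := by
        have h2 := intervalIntegral.integral_comp_neg (a := 0) (b := -x)
          (fun t : ℝ => Real.exp (k * |t|))
        simp only [abs_neg, neg_neg, neg_zero] at h2
        rw [intervalIntegral.integral_symm, ← h2]
      rw [h1, abs_neg, key (-x) (by linarith), abs_of_nonpos h, abs_of_nonneg (hexp _ (by linarith))]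
  rw [habs]
  exact div_le_div_of_nonneg_right (by linarith) hk.le

/-- the weighted integral -/
noncomputable def Kraw (k : ℝ) (A : ℝ →ᵇ (F →L[ℂ] F)) (f : ℝ →ᵇ F) (x : ℝ) : F :=
  Real.exp (-(k * |x|)) • ∫ t in (0 : ℝ)..x, Real.exp (k * |t|) • (A t) (f t)

theorem integrand_cont (k : ℝ) (A : ℝ →ᵇ (F →L[ℂ] F)) (f : ℝ →ᵇ F) :
    Continuous fun t : ℝ => Real.exp (k * |t|) • (A t) (f t) := by
  have h1 : Continuous fun t : ℝ => (A t) (f t) := A.continuous.clm_apply f.continuous
  have h2 : Continuous fun t : ℝ => Real.exp (k * |t|) := by fun_prop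
  exact h2.smul h1

theorem Kraw_cont (k : ℝ) (A : ℝ →ᵇ (F →L[ℂ] F)) (f : ℝ →ᵇ F) : Continuous (Kraw k A f) := by
  have h1 : Continuous fun x : ℝ => ∫ t in (0 : ℝ)..x, Real.exp (k * |t|) • (A t) (f t) :=
    intervalIntegral.continuous_primitive
      (fun a b => (integrand_cont k A f).intervalIntegrable a b) 0
  have h2 : Continuous fun x : ℝ => Real.exp (-(k * |x|)) := by fun_prop
  exact h2.smul h1

theorem Kraw_norm {k : ℝ} (hk : 0 < k) (A : ℝ →ᵇ (F →L[ℂ] F)) (f : ℝ →ᵇ F) (x : ℝ) :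
    ‖Kraw k A f x‖ ≤ ‖A‖ / k * ‖f‖ := by
  unfold Kraw
  rw [norm_smul, Real.norm_of_nonneg (Real.exp_pos _).le]
  have h1 : ∀ t : ℝ, ‖Real.exp (k * |t|) • (A t) (f t)‖ ≤ Real.exp (k * |t|) * (‖A‖ * ‖f‖) := by
    intro t
    rw [norm_smul, Real.norm_of_nonneg (Real.exp_pos _).le]
    refine mul_le_mul_of_nonneg_left ?_ (Real.exp_pos _).le
    exact ((A t).le_opNorm _).trans (mul_le_mul (A.norm_coe_le_norm t) (f.norm_coe_le_norm t)
      (norm_nonneg _) (by positivity))
  have h2 : ‖∫ t in (0 : ℝ)..x, Real.exp (k * |t|) • (A t) (f t)‖ ≤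
      |∫ t in (0 : ℝ)..x, Real.exp (k * |t|) * (‖A‖ * ‖f‖)| :=
    intervalIntegral.norm_integral_le_abs_of_norm_le (Eventually.of_forall fun t => h1 t)
      ((by fun_prop : Continuous fun t : ℝ => Real.exp (k * |t|) * (‖A‖ * ‖f‖)).intervalIntegrable
        _ _)
  rw [intervalIntegral.integral_mul_const, abs_mul, abs_of_nonneg (by positivity : 0 ≤ ‖A‖ * ‖f‖)] at h2
  have h3 := int_exp hk x
  calc Real.exp (-(k * |x|)) * ‖∫ t in (0 : ℝ)..x, Real.exp (k * |t|) • (A t) (f t)‖
      ≤ Real.exp (-(k * |x|)) * (Real.exp (k * |x|) / k * (‖A‖ * ‖f‖)) := by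
        refine mul_le_mul_of_nonneg_left (h2.trans ?_) (Real.exp_pos _).le
        exact mul_le_mul_of_nonneg_right h3 (by positivity)
    _ = (Real.exp (-(k * |x|)) * Real.exp (k * |x|)) * (‖A‖ / k * ‖f‖) := by ring
    _ = ‖A‖ / k * ‖f‖ := by
        rw [← Real.exp_add]; simp

/-- bounded operator -/
noncomputable def Kop {k : ℝ} (hk : 0 < k) (A : ℝ →ᵇ (F →L[ℂ] F)) : (ℝ →ᵇ F) →L[ℂ] (ℝ →ᵇ F) :=
  LinearMap.mkContinuous
    { toFun := fun f => ofNormedAddCommGroup (Kraw k A f) (Kraw_cont k A f) (‖A‖ / k * ‖f‖)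
        (Kraw_norm hk A f)
      map_add' := by
        intro f g
        ext x
        change Kraw k A (f + g) x = Kraw k A f x + Kraw k A g x
        unfold Kraw
        rw [← smul_add, ← intervalIntegral.integral_add
          ((integrand_cont k A f).intervalIntegrable _ _)
          ((integrand_cont k A g).intervalIntegrable _ _)]
        congr 2
        funext t
        rw [BoundedContinuousFunction.add_apply, map_add, smul_add]
      map_smul' := by
        intro c f
        ext x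
        change Kraw k A (c • f) x = c • Kraw k A f x
        unfold Kraw
        have h : (∫ t in (0 : ℝ)..x, Real.exp (k * |t|) • (A t) ((c • f) t)) =
            c • ∫ t in (0 : ℝ)..x, Real.exp (k * |t|) • (A t) (f t) := by
          rw [← intervalIntegral.integral_smul]
          congr 1
          funext t
          rw [BoundedContinuousFunction.smul_apply, map_smul, smul_comm]
        rw [h, smul_comm] } (‖A‖ / k)
    (fun f => norm_ofNormedAddCommGroup_le _ (by positivity) (Kraw_norm hk A f))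

theorem Kop_apply {k : ℝ} (hk : 0 < k) (A : ℝ →ᵇ (F →L[ℂ] F)) (f : ℝ →ᵇ F) (x : ℝ) :
    Kop hk A f x = Kraw k A f x := rfl

theorem Kop_norm {k : ℝ} (hk : 0 < k) (A : ℝ →ᵇ (F →L[ℂ] F)) : ‖Kop hk A‖ ≤ ‖A‖ / k :=
  LinearMap.mkContinuous_norm_le _ (by positivity) _

/-- `exp (-k|x|) v` -/
noncomputable def vk {k : ℝ} (hk : 0 < k) (v : F) : ℝ →ᵇ F :=
  ofNormedAddCommGroup (fun x => Real.exp (-(k * |x|)) • v) (by fun_prop) ‖v‖ (fun x => by
    rw [norm_smul, Real.norm_of_nonneg (Real.exp_pos _).le]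
    have : Real.exp (-(k * |x|)) ≤ 1 := by
      rw [Real.exp_le_one_iff]
      have := mul_nonneg hk.le (abs_nonneg x)
      linarith
    nlinarith [norm_nonneg v])

variable [CompleteSpace F]

theorem local_sol (A0 A1 : ℝ →ᵇ (F →L[ℂ] F)) {R : ℝ} (hR : 0 < R) :
    ∃ Y : ℂ → F → ℝ → F,
      (∀ lam : ℂ, ‖lam‖ < R → ∀ v x, HasDerivAt (Y lam v) ((A0 x + lam • A1 x) (Y lam v x)) x) ∧
      (∀ lam : ℂ, ‖lam‖ < R → ∀ v, Y lam v 0 = v) ∧
      (∀ v x, DifferentiableOn ℂ (fun lam => Y lam v x) (Metric.ball 0 R)) := by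
  set k : ℝ := ‖A0‖ + R * ‖A1‖ + 1 with hkdef
  have hk : 0 < k := by positivity
  let Kl : ℂ → ((ℝ →ᵇ F) →L[ℂ] (ℝ →ᵇ F)) := fun lam => Kop hk A0 + lam • Kop hk A1
  have hnorm : ∀ lam : ℂ, ‖lam‖ < R → ‖Kl lam‖ < 1 := by
    intro lam hl
    have h1 := Kop_norm hk A0
    have h2 := Kop_norm hk A1
    calc ‖Kl lam‖ ≤ ‖Kop hk A0‖ + ‖lam • Kop hk A1‖ := norm_add_le _ _
      _ ≤ ‖A0‖ / k + R * (‖A1‖ / k) := by
          rw [norm_smul]
          exact add_le_add h1 (mul_le_mul hl.le h2 (norm_nonneg _) hR.le)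
      _ = (‖A0‖ + R * ‖A1‖) / k := by ring
      _ < 1 := by rw [div_lt_one hk]; linarith
  have hu : ∀ lam : ℂ, ‖lam‖ < R → IsUnit (1 - Kl lam) := fun lam hl =>
    isUnit_one_sub_of_norm_lt_one (hnorm lam hl)
  let P : ℂ → F → (ℝ →ᵇ F) := fun lam v => Ring.inverse (1 - Kl lam) (vk hk v)
  have hP : ∀ lam : ℂ, ‖lam‖ < R → ∀ v x, P lam v x = Real.exp (-(k * |x|)) • v +
      Real.exp (-(k * |x|)) • ∫ t in (0 : ℝ)..x, Real.exp (k * |t|) •
        (A0 t + lam • A1 t) (P lam v t) := by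
    intro lam hl v x
    have h1 : (1 - Kl lam) (P lam v) = vk hk v := by
      have h2 := Ring.mul_inverse_cancel _ (hu lam hl)
      exact congrArg (fun S : (ℝ →ᵇ F) →L[ℂ] (ℝ →ᵇ F) => S (vk hk v)) h2
    have h2 : P lam v x - (Kraw k A0 (P lam v) x + lam • Kraw k A1 (P lam v) x) =
        Real.exp (-(k * |x|)) • v := by
      have := congrArg (fun f : ℝ →ᵇ F => f x) h1
      exact this
    have h3 : Kraw k A0 (P lam v) x + lam • Kraw k A1 (P lam v) x =
        Real.exp (-(k * |x|)) • ∫ t in (0 : ℝ)..x, Real.exp (k * |t|) •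
        (A0 t + lam • A1 t) (P lam v t) := by
      unfold Kraw
      have h4 : lam • (∫ t in (0 : ℝ)..x, Real.exp (k * |t|) • (A1 t) (P lam v t)) =
          ∫ t in (0 : ℝ)..x, lam • (Real.exp (k * |t|) • (A1 t) (P lam v t)) := by
        rw [intervalIntegral.integral_smul]
      have h5 : (∫ t in (0 : ℝ)..x, Real.exp (k * |t|) • (A0 t) (P lam v t)) +
          (∫ t in (0 : ℝ)..x, lam • (Real.exp (k * |t|) • (A1 t) (P lam v t))) =
          ∫ t in (0 : ℝ)..x, (Real.exp (k * |t|) • (A0 t) (P lam v t) +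
            lam • (Real.exp (k * |t|) • (A1 t) (P lam v t))) :=
        (intervalIntegral.integral_add ((integrand_cont k A0 _).intervalIntegrable _ _)
          (((integrand_cont k A1 _).const_smul lam).intervalIntegrable _ _)).symm
      rw [smul_comm lam, h4, ← smul_add, h5]
      congr 2
      funext t
      rw [_root_.add_apply, _root_.smul_apply, smul_add, smul_comm lam]
    rw [h3] at h2
    rw [← h2]
    abel
  let Y : ℂ → F → ℝ → F := fun lam v x => Real.exp (k * |x|) • P lam v x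
  have hYc : ∀ lam v, Continuous (Y lam v) := fun lam v =>
    (by fun_prop : Continuous fun x : ℝ => Real.exp (k * |x|)).smul (P lam v).continuous
  have hY : ∀ lam : ℂ, ‖lam‖ < R → ∀ v x, Y lam v x =
      v + ∫ t in (0 : ℝ)..x, (A0 t + lam • A1 t) (Y lam v t) := by
    intro lam hl v x
    have he : Real.exp (k * |x|) * Real.exp (-(k * |x|)) = 1 := by
      rw [← Real.exp_add]; simp
    change Real.exp (k * |x|) • P lam v x = _
    rw [hP lam hl, smul_add, smul_smul, smul_smul, he, one_smul, one_smul]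
    congr 2
    funext t
    change _ = (A0 t + lam • A1 t) (Real.exp (k * |t|) • P lam v t)
    exact ((A0 t + lam • A1 t).map_smul_of_tower _ _).symm
  refine ⟨Y, ?_, ?_, ?_⟩
  · intro lam hl v x
    have hc : Continuous fun t => (A0 t + lam • A1 t) (Y lam v t) :=
      (A0.continuous.add (A1.continuous.const_smul lam)).clm_apply (hYc lam v)
    have h1 : HasDerivAt (fun x => v + ∫ t in (0 : ℝ)..x, (A0 t + lam • A1 t) (Y lam v t))
        ((A0 x + lam • A1 x) (Y lam v x)) x :=
      (hc.integral_hasStrictDerivAt 0 x).hasDerivAt.const_add v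
    exact h1.congr_of_eventuallyEq (Eventually.of_forall fun x => hY lam hl v x)
  · intro lam hl v
    rw [hY lam hl]
    simp
  · intro v x lam hl
    have hl' : ‖lam‖ < R := by simpa using hl
    have h1 : DifferentiableAt ℂ (fun lam => 1 - Kl lam) lam := by
      have : Differentiable ℂ (fun lam : ℂ => (1 : (ℝ →ᵇ F) →L[ℂ] (ℝ →ᵇ F)) -
        (Kop hk A0 + lam • Kop hk A1)) := by fun_prop
      exact this lam
    have h2 : DifferentiableAt ℂ (fun lam => Ring.inverse (1 - Kl lam)) lam :=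
      DifferentiableAt.comp (g := Ring.inverse) lam (differentiableAt_inverse (hu lam hl')) h1
    have h3 : DifferentiableAt ℂ (fun lam => P lam v) lam :=
      h2.clm_apply (differentiableAt_const _)
    have h4 : DifferentiableAt ℂ (fun lam => P lam v x) lam :=
      DifferentiableAt.comp (g := fun f : ℝ →ᵇ F => f x) lam
        (ContinuousLinearMap.differentiableAt
          (BoundedContinuousFunction.evalCLM ℂ x : (ℝ →ᵇ F) →L[ℂ] F)) h3
    exact (h4.const_smul (Real.exp (k * |x|))).differentiableWithinAt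

theorem unique (A0 A1 : ℝ →ᵇ (F →L[ℂ] F)) (lam : ℂ) {y z : ℝ → F}
    (hy : ∀ x, HasDerivAt y ((A0 x + lam • A1 x) (y x)) x)
    (hz : ∀ x, HasDerivAt z ((A0 x + lam • A1 x) (z x)) x) {x0 : ℝ} (h0 : y x0 = z x0) : y = z := by
  refine ODE_solution_unique_univ (v := fun x u => (A0 x + lam • A1 x) u) (s := fun _ => univ)
    (K := Real.toNNReal (‖A0‖ + ‖lam‖ * ‖A1‖)) (t₀ := x0) (fun t => ?_)
    (fun t => ⟨hy t, mem_univ _⟩) (fun t => ⟨hz t, mem_univ _⟩) h0
  refine LipschitzWith.lipschitzOnWith ?_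
  refine LipschitzWith.of_dist_le_mul fun u w => ?_
  rw [dist_eq_norm, dist_eq_norm, ← map_sub, Real.coe_toNNReal _ (by positivity)]
  refine ((A0 t + lam • A1 t).le_opNorm _).trans (mul_le_mul_of_nonneg_right ?_ (norm_nonneg _))
  refine (norm_add_le _ _).trans ?_
  rw [norm_smul]
  exact add_le_add (A0.norm_coe_le_norm t)
    (mul_le_mul_of_nonneg_left (A1.norm_coe_le_norm t) (norm_nonneg _))

theorem exists_sol (A0 A1 : ℝ →ᵇ (F →L[ℂ] F)) :
    ∃ Y : ℂ → F → ℝ → F,
      (∀ lam v x, HasDerivAt (Y lam v) ((A0 x + lam • A1 x) (Y lam v x)) x) ∧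
      (∀ lam v, Y lam v 0 = v) ∧
      (∀ v x, Differentiable ℂ (fun lam => Y lam v x)) := by
  choose Y h1 h2 h3 using fun n : ℕ => local_sol A0 A1 (R := (n : ℝ) + 1) (by positivity)
  have hlt : ∀ lam : ℂ, ‖lam‖ < ((⌈‖lam‖⌉₊ : ℕ) : ℝ) + 1 := fun lam => by
    have := Nat.le_ceil ‖lam‖
    linarith
  have hagree : ∀ (m n : ℕ) (lam : ℂ), ‖lam‖ < m + 1 → ‖lam‖ < n + 1 → ∀ v,
      Y m lam v = Y n lam v := fun m n lam hm hn v =>
    unique A0 A1 lam (fun x => h1 m lam hm v x) (fun x => h1 n lam hn v x) (x0 := 0)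
      (by rw [h2 m lam hm, h2 n lam hn])
  refine ⟨fun lam => Y ⌈‖lam‖⌉₊ lam, fun lam v x => h1 _ lam (hlt lam) v x,
    fun lam v => h2 _ lam (hlt lam) v, fun v x lam => ?_⟩
  set N : ℕ := ⌈‖lam‖⌉₊ with hN
  have hmem : Metric.ball (0 : ℂ) (N + 1) ∈ 𝓝 lam :=
    Metric.isOpen_ball.mem_nhds (by simpa using hlt lam)
  have h4 : DifferentiableAt ℂ (fun lam => Y N lam v x) lam := (h3 N v x).differentiableAt hmem
  refine h4.congr_of_eventuallyEq ?_
  filter_upwards [hmem] with w hw
  have hw' : ‖w‖ < N + 1 := by simpa using hw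
  rw [hagree _ N w (hlt w) hw' v]

end Pool.Agent.H751R3.Fq
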