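import Mathlib
import Pool.Agent.H751R3.Fq.Ode

set_option autoImplicit false

/-! Hill's equation `u'' = (Q + μ) u` with `Q(x) = sin² x - 2 cos x`. -/

namespace Pool.Agent.H751R3.Fq

open MeasureTheory Set Filter Topology BoundedContinuousFunction

/-- the potential -/
noncomputable def Q (x : ℝ) : ℝ := Real.sin x ^ 2 - 2 * Real.cos x

theorem Q_cont : Continuous Q := by unfold Q; fun_prop

theorem Q_abs (x : ℝ) : |Q x| ≤ 3 := by
  unfold Q
  have h1 := Real.neg_one_le_sin x; have h2 := Real.sin_le_one x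
  have h3 := Real.neg_one_le_cos x; have h4 := Real.cos_le_one x
  rw [abs_le]
  constructor <;> nlinarith

theorem Q_per (x : ℝ) : Q (x + 2 * Real.pi) = Q x := by
  unfold Q; rw [Real.sin_add_two_pi, Real.cos_add_two_pi]

/-- `(y₁, y₂) ↦ (y₂, 0)` -/
noncomputable def N1 : (ℂ × ℂ) →L[ℂ] (ℂ × ℂ) :=
  (ContinuousLinearMap.inl ℂ ℂ ℂ).comp (ContinuousLinearMap.snd ℂ ℂ ℂ)

/-- `(y₁, y₂) ↦ (0, y₁)` -/
noncomputable def N2 : (ℂ × ℂ) →L[ℂ] (ℂ × ℂ) :=
  (ContinuousLinearMap.inr ℂ ℂ ℂ).comp (ContinuousLinearMap.fst ℂ ℂ ℂ)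

theorem N1_apply (y : ℂ × ℂ) : N1 y = (y.2, 0) := rfl
theorem N2_apply (y : ℂ × ℂ) : N2 y = (0, y.1) := rfl

/-- the coefficients -/
noncomputable def HA0 : ℝ →ᵇ ((ℂ × ℂ) →L[ℂ] (ℂ × ℂ)) :=
  ofNormedAddCommGroup (fun x => N1 + (Q x : ℂ) • N2)
    (continuous_const.add ((Complex.continuous_ofReal.comp Q_cont).smul continuous_const))
    (‖N1‖ + 3 * ‖N2‖) (fun x => by
      refine (norm_add_le _ _).trans ?_
      rw [norm_smul, Complex.norm_real, Real.norm_eq_abs]
      have := Q_abs x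
      have := norm_nonneg N2
      nlinarith)

/-- the coefficients -/
noncomputable def HA1 : ℝ →ᵇ ((ℂ × ℂ) →L[ℂ] (ℂ × ℂ)) :=
  BoundedContinuousFunction.const ℝ N2

theorem HA_apply (mu : ℂ) (x : ℝ) (y : ℂ × ℂ) :
    (HA0 x + mu • HA1 x) y = (y.2, ((Q x : ℂ) + mu) * y.1) := by
  change (N1 + (Q x : ℂ) • N2 + mu • N2) y = _
  rw [_root_.add_apply, _root_.add_apply, _root_.smul_apply, _root_.smul_apply, N1_apply, N2_apply]
  ext
  · simp
  · simp; ring

/-- solutions of Hill's equation with initial data `v` at `0` -/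
noncomputable def HY : ℂ → ℂ × ℂ → ℝ → ℂ × ℂ := (exists_sol HA0 HA1).choose

theorem HY_deriv (mu : ℂ) (v : ℂ × ℂ) (x : ℝ) :
    HasDerivAt (HY mu v) ((HY mu v x).2, ((Q x : ℂ) + mu) * (HY mu v x).1) x := by
  have := (exists_sol HA0 HA1).choose_spec.1 mu v x
  rw [HA_apply] at this
  exact this

theorem HY_zero (mu : ℂ) (v : ℂ × ℂ) : HY mu v 0 = v := (exists_sol HA0 HA1).choose_spec.2.1 mu v

theorem HY_diff (v : ℂ × ℂ) (x : ℝ) : Differentiable ℂ (fun mu => HY mu v x) :=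
  (exists_sol HA0 HA1).choose_spec.2.2 v x

theorem pair_unique {mu : ℂ} {y z : ℝ → ℂ × ℂ}
    (hy : ∀ x, HasDerivAt y ((y x).2, ((Q x : ℂ) + mu) * (y x).1) x)
    (hz : ∀ x, HasDerivAt z ((z x).2, ((Q x : ℂ) + mu) * (z x).1) x)
    {x0 : ℝ} (h0 : y x0 = z x0) : y = z :=
  unique HA0 HA1 mu (fun x => by rw [HA_apply]; exact hy x) (fun x => by rw [HA_apply]; exact hz x) h0

theorem HY_fst (mu : ℂ) (v : ℂ × ℂ) (x : ℝ) :
    HasDerivAt (fun x => (HY mu v x).1) (HY mu v x).2 x := (HY_deriv mu v x).fst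

theorem HY_snd (mu : ℂ) (v : ℂ × ℂ) (x : ℝ) :
    HasDerivAt (fun x => (HY mu v x).2) (((Q x : ℂ) + mu) * (HY mu v x).1) x := (HY_deriv mu v x).snd

theorem eq_HY {mu : ℂ} {u u' : ℝ → ℂ} (h1 : ∀ x, HasDerivAt u (u' x) x)
    (h2 : ∀ x, HasDerivAt u' (((Q x : ℂ) + mu) * u x) x) (x : ℝ) :
    (u x, u' x) = HY mu (u 0, u' 0) x := by
  have := pair_unique (mu := mu) (y := fun x => (u x, u' x)) (z := HY mu (u 0, u' 0))
    (fun x => (h1 x).prodMk (h2 x)) (fun x => HY_deriv mu _ x) (x0 := 0) (by rw [HY_zero])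
  exact congrFun this x

theorem HY_lin (mu : ℂ) (v : ℂ × ℂ) (x : ℝ) :
    HY mu v x = v.1 • HY mu (1, 0) x + v.2 • HY mu (0, 1) x := by
  have := pair_unique (mu := mu) (y := HY mu v)
    (z := fun x => v.1 • HY mu (1, 0) x + v.2 • HY mu (0, 1) x)
    (fun x => HY_deriv mu _ x) (fun x => by
      have h := ((HY_deriv mu (1, 0) x).const_smul v.1).add ((HY_deriv mu (0, 1) x).const_smul v.2)
      refine h.congr_deriv ?_
      ext
      · simp
      · simp; ring) (x0 := 0) (by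
      simp only [HY_zero]
      ext <;> simp)
  exact congrFun this x

/-- monodromy entries -/
noncomputable def cc (mu : ℂ) : ℂ := (HY mu (1, 0) (2 * Real.pi)).1
/-- monodromy entries -/
noncomputable def cd (mu : ℂ) : ℂ := (HY mu (1, 0) (2 * Real.pi)).2
/-- monodromy entries -/
noncomputable def sc (mu : ℂ) : ℂ := (HY mu (0, 1) (2 * Real.pi)).1
/-- monodromy entries -/
noncomputable def sd (mu : ℂ) : ℂ := (HY mu (0, 1) (2 * Real.pi)).2

theorem cc_diff : Differentiable ℂ cc := fun mu => (HY_diff (1, 0) (2 * Real.pi) mu).fst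
theorem cd_diff : Differentiable ℂ cd := fun mu => (HY_diff (1, 0) (2 * Real.pi) mu).snd
theorem sc_diff : Differentiable ℂ sc := fun mu => (HY_diff (0, 1) (2 * Real.pi) mu).fst
theorem sd_diff : Differentiable ℂ sd := fun mu => (HY_diff (0, 1) (2 * Real.pi) mu).snd

theorem mono (mu : ℂ) (v : ℂ × ℂ) : HY mu v (2 * Real.pi) =
    (v.1 * cc mu + v.2 * sc mu, v.1 * cd mu + v.2 * sd mu) := by
  rw [HY_lin]
  rfl

theorem det_one (mu : ℂ) : cc mu * sd mu - cd mu * sc mu = 1 := by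
  set w : ℝ → ℂ := fun x => (HY mu (1, 0) x).1 * (HY mu (0, 1) x).2 -
    (HY mu (1, 0) x).2 * (HY mu (0, 1) x).1 with hw
  have hd : ∀ x, HasDerivAt w 0 x := by
    intro x
    have h := ((HY_fst mu (1, 0) x).mul (HY_snd mu (0, 1) x)).sub
      ((HY_snd mu (1, 0) x).mul (HY_fst mu (0, 1) x))
    refine h.congr_deriv ?_
    ring
  have hc := is_const_of_deriv_eq_zero (fun x => (hd x).differentiableAt)
    (fun x => (hd x).deriv) (2 * Real.pi) 0
  have h0 : w 0 = 1 := by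
    rw [hw]
    simp [HY_zero]
  rw [← h0, ← hc]
  rfl

/-- the discriminant -/
noncomputable def Dl (mu : ℂ) : ℂ := cc mu + sd mu

theorem Dl_diff : Differentiable ℂ Dl := cc_diff.add sd_diff

/-- Floquet solutions -/
theorem floquet {mu r : ℂ} {v : ℂ × ℂ} (h : HY mu v (2 * Real.pi) = r • v) (x : ℝ) :
    HY mu v (x + 2 * Real.pi) = r • HY mu v x := by
  have := pair_unique (mu := mu) (y := fun x => HY mu v (x + 2 * Real.pi))
    (z := fun x => r • HY mu v x) (fun x => by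
      have h1 := (HY_deriv mu v (x + 2 * Real.pi)).comp_add_const x (2 * Real.pi)
      rw [Q_per] at h1
      exact h1) (fun x => by
      refine ((HY_deriv mu v x).const_smul r).congr_deriv ?_
      ext
      · simp
      · simp; ring) (x0 := 0) (by
      simp only [zero_add, HY_zero, h])
  exact congrFun this x

/-! ### real values on the real line -/

theorem real_sol (mu : ℝ) {v : ℂ × ℂ} (h1 : v.1.im = 0) (h2 : v.2.im = 0) (x : ℝ) :
    (HY mu v x).1.im = 0 ∧ (HY mu v x).2.im = 0 := by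
  have := pair_unique (mu := mu)
    (y := fun x => (((HY mu v x).1.im : ℂ), ((HY mu v x).2.im : ℂ))) (z := fun _ => 0)
    (fun x => by
      have e1 : HasDerivAt (fun x => (((HY mu v x).1.im : ℝ) : ℂ)) ((HY mu v x).2.im : ℂ) x :=
        (Complex.imCLM.hasFDerivAt.comp_hasDerivAt x (HY_fst mu v x)).ofReal_comp
      have e2 : HasDerivAt (fun x => (((HY mu v x).2.im : ℝ) : ℂ))
          (((((Q x : ℂ) + mu) * (HY mu v x).1).im : ℝ) : ℂ) x :=
        (Complex.imCLM.hasFDerivAt.comp_hasDerivAt x (HY_snd mu v x)).ofReal_comp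
      have e3 : ((((((Q x : ℂ) + mu) * (HY mu v x).1).im : ℝ)) : ℂ) =
          ((Q x : ℂ) + mu) * ((HY mu v x).1.im : ℂ) := by
        have : (Q x : ℂ) + mu = ((Q x + mu : ℝ) : ℂ) := by push_cast; ring
        rw [this, Complex.im_ofReal_mul]
        push_cast
        ring
      rw [e3] at e2
      exact e1.prodMk e2) (fun x => by
      have := hasDerivAt_const x (0 : ℂ × ℂ)
      refine this.congr_deriv ?_
      ext <;> simp) (x0 := 0) (by
      simp only [HY_zero, h1, h2]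
      ext <;> simp)
  have h3 := congrFun this x
  simp only [Prod.ext_iff, Prod.fst_zero, Prod.snd_zero] at h3
  exact ⟨by exact_mod_cast h3.1, by exact_mod_cast h3.2⟩

theorem Dl_real (mu : ℝ) : (Dl mu).im = 0 := by
  unfold Dl cc sd
  rw [Complex.add_im, (real_sol mu (v := (1, 0)) rfl rfl _).1,
    (real_sol mu (v := (0, 1)) rfl rfl _).2, add_zero]

end Pool.Agent.H751R3.Fq
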