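import Mathlib
import Pool.Agent.H751R3.Fq.Hill

set_option autoImplicit false

/-! A critical point of the discriminant inside a gap. -/

namespace Pool.Agent.H751R3.Fq

open MeasureTheory Set Filter Topology

theorem real_eq {mu : ℝ} {u u' : ℝ → ℝ} (h1 : ∀ x, HasDerivAt u (u' x) x)
    (h2 : ∀ x, HasDerivAt u' ((Q x + mu) * u x) x) (x : ℝ) :
    ((u x : ℂ), (u' x : ℂ)) = HY mu ((u 0 : ℂ), (u' 0 : ℂ)) x := by
  refine eq_HY (u := fun x => (u x : ℂ)) (u' := fun x => (u' x : ℂ))
    (fun x => (h1 x).ofReal_comp) (fun x => ?_) x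
  have := (h2 x).ofReal_comp
  push_cast at this
  exact this

theorem half_facts (x : ℝ) : Real.sin x = 2 * Real.sin (x / 2) * Real.cos (x / 2) ∧
    Real.cos x = 2 * Real.cos (x / 2) ^ 2 - 1 := by
  constructor
  · rw [← Real.sin_two_mul]; congr 1; ring
  · rw [← Real.cos_two_mul]; congr 1; ring

theorem d_sin_half (x : ℝ) :
    HasDerivAt (fun x : ℝ => Real.sin (x / 2)) (Real.cos (x / 2) / 2) x := by
  have := ((hasDerivAt_id x).div_const 2).sin
  refine this.congr_deriv ?_
  simp; ring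

theorem d_cos_half (x : ℝ) :
    HasDerivAt (fun x : ℝ => Real.cos (x / 2)) (-Real.sin (x / 2) / 2) x := by
  have := ((hasDerivAt_id x).div_const 2).cos
  refine this.congr_deriv ?_
  simp; ring

theorem d_exp_cos (x : ℝ) :
    HasDerivAt (fun x : ℝ => Real.exp (Real.cos x)) (Real.exp (Real.cos x) * (-Real.sin x)) x :=
  (Real.hasDerivAt_cos x).exp

theorem pi_facts : Real.sin (2 * Real.pi / 2) = 0 ∧ Real.cos (2 * Real.pi / 2) = -1 := by
  have : 2 * Real.pi / 2 = Real.pi := by ring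
  rw [this]
  exact ⟨Real.sin_pi, Real.cos_pi⟩

theorem Dl_s : Dl ((-5 / 4 : ℝ) : ℂ) = -2 := by
  set u : ℝ → ℝ := fun x => Real.exp (Real.cos x) * Real.sin (x / 2) with hu
  set u' : ℝ → ℝ := fun x => Real.exp (Real.cos x) *
    (-Real.sin x * Real.sin (x / 2) + Real.cos (x / 2) / 2) with hu'
  have h1 : ∀ x, HasDerivAt u (u' x) x := by
    intro x
    refine ((d_exp_cos x).mul (d_sin_half x)).congr_deriv ?_
    rw [hu']; ring
  have h2 : ∀ x, HasDerivAt u' ((Q x + (-5 / 4 : ℝ)) * u x) x := by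
    intro x
    have h := (d_exp_cos x).mul (((Real.hasDerivAt_sin x).neg.mul (d_sin_half x)).add
      ((d_cos_half x).div_const 2))
    refine h.congr_deriv ?_
    obtain ⟨e1, e2⟩ := half_facts x
    rw [hu]
    unfold Q
    simp only [Pi.add_apply, Pi.mul_apply, Pi.neg_apply]
    linear_combination Real.exp (Real.cos x) * (-Real.cos (x / 2) * e1 + Real.sin (x / 2) * e2)
  have h3 := real_eq h1 h2 (2 * Real.pi)
  rw [mono] at h3
  have e0 : u 0 = 0 := by simp [hu]
  have e0' : u' 0 = Real.exp 1 / 2 := by simp [hu']; ring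
  have e2 : u (2 * Real.pi) = 0 := by rw [hu]; simp [pi_facts.1]
  have e2' : u' (2 * Real.pi) = -(Real.exp 1 / 2) := by
    simp only [hu']
    rw [pi_facts.1, pi_facts.2, Real.cos_two_pi]
    ring
  rw [e0, e0', e2, e2'] at h3
  simp only [Prod.mk.injEq] at h3
  have hE : (((Real.exp 1 / 2 : ℝ)) : ℂ) ≠ 0 := by
    have : Real.exp 1 / 2 ≠ 0 := by positivity
    exact_mod_cast this
  have hs : sc ((-5 / 4 : ℝ) : ℂ) = 0 := by
    have := h3.1
    simp only [Complex.ofReal_zero, zero_mul, zero_add] at this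
    rcases mul_eq_zero.1 this.symm with h | h
    · exact absurd h hE
    · exact h
  have hsd : sd ((-5 / 4 : ℝ) : ℂ) = -1 := by
    have := h3.2
    simp only [Complex.ofReal_zero, zero_mul, zero_add, Complex.ofReal_neg] at this
    apply mul_left_cancel₀ hE
    rw [← this]; ring
  have hdet := det_one ((-5 / 4 : ℝ) : ℂ)
  rw [hs, hsd] at hdet
  unfold Dl
  rw [hsd]
  linear_combination -hdet

theorem Dl_c : Dl ((3 / 4 : ℝ) : ℂ) = -2 := by
  set u : ℝ → ℝ := fun x => Real.exp (Real.cos x) * Real.cos (x / 2) with hu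
  set u' : ℝ → ℝ := fun x => Real.exp (Real.cos x) *
    (-Real.sin x * Real.cos (x / 2) + -Real.sin (x / 2) / 2) with hu'
  have h1 : ∀ x, HasDerivAt u (u' x) x := by
    intro x
    refine ((d_exp_cos x).mul (d_cos_half x)).congr_deriv ?_
    rw [hu']; ring
  have h2 : ∀ x, HasDerivAt u' ((Q x + (3 / 4 : ℝ)) * u x) x := by
    intro x
    have h := (d_exp_cos x).mul (((Real.hasDerivAt_sin x).neg.mul (d_cos_half x)).add
      ((d_sin_half x).neg.div_const 2))
    refine h.congr_deriv ?_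
    obtain ⟨e1, e2⟩ := half_facts x
    have e3 := Real.sin_sq_add_cos_sq (x / 2)
    rw [hu]
    unfold Q
    simp only [Pi.add_apply, Pi.mul_apply, Pi.neg_apply]
    linear_combination Real.exp (Real.cos x) * (Real.sin (x / 2) * e1 + Real.cos (x / 2) * e2 +
      2 * Real.cos (x / 2) * e3)
  have h3 := real_eq h1 h2 (2 * Real.pi)
  rw [mono] at h3
  have e0 : u 0 = Real.exp 1 := by simp [hu]
  have e0' : u' 0 = 0 := by simp [hu']
  have e2 : u (2 * Real.pi) = -Real.exp 1 := by
    simp only [hu]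
    rw [pi_facts.2, Real.cos_two_pi]; ring
  have e2' : u' (2 * Real.pi) = 0 := by
    simp only [hu']
    rw [pi_facts.1, Real.sin_two_pi]
    ring
  rw [e0, e0', e2, e2'] at h3
  simp only [Prod.mk.injEq] at h3
  have hE : (((Real.exp 1 : ℝ)) : ℂ) ≠ 0 := by
    have : Real.exp 1 ≠ 0 := by positivity
    exact_mod_cast this
  have hs : cd ((3 / 4 : ℝ) : ℂ) = 0 := by
    have := h3.2
    simp only [Complex.ofReal_zero, zero_mul, add_zero] at this
    rcases mul_eq_zero.1 this.symm with h | h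
    · exact absurd h hE
    · exact h
  have hcc : cc ((3 / 4 : ℝ) : ℂ) = -1 := by
    have := h3.1
    simp only [Complex.ofReal_zero, zero_mul, add_zero, Complex.ofReal_neg] at this
    apply mul_left_cancel₀ hE
    rw [← this]; ring
  have hdet := det_one ((3 / 4 : ℝ) : ℂ)
  rw [hs, hcc] at hdet
  unfold Dl
  rw [hcc]
  linear_combination -hdet

/-- a cooperative pair -/
theorem coop {al be p q : ℝ → ℝ} (hal : ∀ x, 0 ≤ al x) (hbe : ∀ x, 0 ≤ be x)
    (hp : ∀ x, HasDerivAt p (al x * q x) x) (hq : ∀ x, HasDerivAt q (be x * p x) x)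
    (p0 : p 0 = 1) (q0 : q 0 = 0) : ∀ x, 0 ≤ x → 1 ≤ p x ∧ 0 ≤ q x := by
  have hpc : Continuous p := continuous_iff_continuousAt.2 fun x => (hp x).continuousAt
  have hqc : Continuous q := continuous_iff_continuousAt.2 fun x => (hq x).continuousAt
  have hpq : ∀ x, HasDerivAt (fun x => p x * q x) (al x * q x * q x + p x * (be x * p x)) x :=
    fun x => (hp x).mul (hq x)
  have hm1 : Monotone fun x => p x * q x := by
    refine monotone_of_hasDerivAt_nonneg hpq fun x => ?_
    have h1 := mul_nonneg (hal x) (sq_nonneg (q x))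
    have h2 := mul_nonneg (hbe x) (sq_nonneg (p x))
    show 0 ≤ al x * q x * q x + p x * (be x * p x)
    nlinarith
  have hnn : ∀ x, 0 ≤ x → 0 ≤ p x * q x := by
    intro x hx
    have := hm1 hx
    simp only [p0, q0, mul_zero] at this
    exact this
  have hmp : MonotoneOn (fun x => p x ^ 2) (Ici 0) := by
    refine monotoneOn_of_deriv_nonneg (convex_Ici 0) (hpc.pow 2).continuousOn
      (fun x _ => ((hp x).fun_pow 2).differentiableAt.differentiableWithinAt) fun x hx => ?_
    rw [interior_Ici] at hx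
    rw [((hp x).fun_pow 2).deriv]
    have h1 := mul_nonneg (hal x) (hnn x (le_of_lt hx))
    norm_num
    nlinarith
  have hsq : ∀ x, 0 ≤ x → 1 ≤ p x ^ 2 := by
    intro x hx
    have := hmp (mem_Ici.2 le_rfl) (mem_Ici.2 hx) hx
    simp only [p0] at this
    linarith
  have hp1 : ∀ x, 0 ≤ x → 1 ≤ p x := by
    intro x hx
    by_contra h
    push Not at h
    have h1 := hsq x hx
    have h2 : p x ≤ -1 := by
      by_contra h3
      push Not at h3
      nlinarith
    -- intermediate value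
    obtain ⟨y, hy, hy0⟩ : ∃ y ∈ Icc 0 x, p y = 0 :=
      intermediate_value_Icc' hx hpc.continuousOn ⟨by linarith, by rw [p0]; norm_num⟩
    have := hsq y hy.1
    rw [hy0] at this
    norm_num at this
  intro x hx
  refine ⟨hp1 x hx, ?_⟩
  have h1 := hnn x hx
  have h2 := hp1 x hx
  by_contra h
  push Not at h
  nlinarith

/-- coefficients of the auxiliary system -/
noncomputable def PA : BoundedContinuousFunction ℝ ((ℂ × ℂ) →L[ℂ] (ℂ × ℂ)) :=
  BoundedContinuousFunction.ofNormedAddCommGroup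
    (fun x => ((1 - Real.cos x : ℝ) : ℂ) • N1 + ((1 + Real.cos x : ℝ) : ℂ) • N2)
    (by
      have h1 : Continuous fun x : ℝ => ((1 - Real.cos x : ℝ) : ℂ) := by fun_prop
      have h2 : Continuous fun x : ℝ => ((1 + Real.cos x : ℝ) : ℂ) := by fun_prop
      exact (h1.smul continuous_const).add (h2.smul continuous_const))
    (2 * ‖N1‖ + 2 * ‖N2‖) (fun x => by
      refine (norm_add_le _ _).trans ?_
      rw [norm_smul, norm_smul, Complex.norm_real, Complex.norm_real, Real.norm_eq_abs,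
        Real.norm_eq_abs]
      have h1 := Real.neg_one_le_cos x; have h2 := Real.cos_le_one x
      have h3 : |1 - Real.cos x| ≤ 2 := by rw [abs_le]; constructor <;> linarith
      have h4 : |1 + Real.cos x| ≤ 2 := by rw [abs_le]; constructor <;> linarith
      exact add_le_add (mul_le_mul_of_nonneg_right h3 (norm_nonneg _))
        (mul_le_mul_of_nonneg_right h4 (norm_nonneg _)))

theorem exists_pq (a b : ℝ) : ∃ p q : ℝ → ℝ, p 0 = a ∧ q 0 = b ∧
    (∀ x, HasDerivAt p ((1 - Real.cos x) * q x) x) ∧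
    (∀ x, HasDerivAt q ((1 + Real.cos x) * p x) x) := by
  obtain ⟨Y, h1, h2, -⟩ := exists_sol PA PA
  have hY := h1 0 ((a : ℂ), (b : ℂ))
  have h0 := h2 0 ((a : ℂ), (b : ℂ))
  have hv : ∀ (x : ℝ) (y : ℂ × ℂ), (PA x + (0 : ℂ) • PA x) y =
      (((1 - Real.cos x : ℝ) : ℂ) * y.2, ((1 + Real.cos x : ℝ) : ℂ) * y.1) := by
    intro x y
    rw [_root_.add_apply, _root_.smul_apply, zero_smul, add_zero]
    change (((1 - Real.cos x : ℝ) : ℂ) • N1 + ((1 + Real.cos x : ℝ) : ℂ) • N2) y = _
    rw [_root_.add_apply, _root_.smul_apply, _root_.smul_apply, N1_apply, N2_apply]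
    ext <;> simp
  refine ⟨fun x => (Y 0 ((a : ℂ), (b : ℂ)) x).1.re, fun x => (Y 0 ((a : ℂ), (b : ℂ)) x).2.re,
    by simp [h0], by simp [h0], fun x => ?_, fun x => ?_⟩
  · have h3 := hY x
    rw [hv] at h3
    have : HasDerivAt (fun x => (Y 0 ((a : ℂ), (b : ℂ)) x).1.re) _ x :=
      Complex.reCLM.hasFDerivAt.comp_hasDerivAt x h3.fst
    refine this.congr_deriv ?_
    exact Complex.re_ofReal_mul _ _
  · have h3 := hY x
    rw [hv] at h3
    have : HasDerivAt (fun x => (Y 0 ((a : ℂ), (b : ℂ)) x).2.re) _ x :=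
      Complex.reCLM.hasFDerivAt.comp_hasDerivAt x h3.snd
    refine this.congr_deriv ?_
    exact Complex.re_ofReal_mul _ _

theorem pq_hill {p q : ℝ → ℝ} (hp : ∀ x, HasDerivAt p ((1 - Real.cos x) * q x) x)
    (hq : ∀ x, HasDerivAt q ((1 + Real.cos x) * p x) x) :
    ((p (2 * Real.pi) : ℂ), ((-(q (2 * Real.pi)) / 2 : ℝ) : ℂ)) =
      HY ((-1 / 4 : ℝ) : ℂ) ((-(p 0) : ℝ), ((q 0 / 2 : ℝ) : ℂ)) (2 * Real.pi) := by
  set u : ℝ → ℝ := fun x => -p x * Real.cos (x / 2) + q x * Real.sin (x / 2) with hu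
  set u' : ℝ → ℝ := fun x => -Real.sin x * (-p x * Real.cos (x / 2) + q x * Real.sin (x / 2)) +
    (p x * Real.sin (x / 2) + q x * Real.cos (x / 2)) / 2 with hu'
  have h1 : ∀ x, HasDerivAt u (u' x) x := by
    intro x
    have h := ((hp x).neg.mul (d_cos_half x)).add ((hq x).mul (d_sin_half x))
    refine h.congr_deriv ?_
    obtain ⟨e1, e2⟩ := half_facts x
    have e3 := Real.sin_sq_add_cos_sq (x / 2)
    rw [hu']
    simp only [Pi.neg_apply]
    linear_combination (-p x * Real.cos (x / 2) + q x * Real.sin (x / 2)) * e1 +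
      (q x * Real.cos (x / 2) + p x * Real.sin (x / 2)) * e2 + 2 * q x * Real.cos (x / 2) * e3
  have h2 : ∀ x, HasDerivAt u' ((Q x + (-1 / 4 : ℝ)) * u x) x := by
    intro x
    have h := ((Real.hasDerivAt_sin x).neg.mul (h1 x)).add
      ((((hp x).mul (d_sin_half x)).add ((hq x).mul (d_cos_half x))).div_const 2)
    refine h.congr_deriv ?_
    obtain ⟨e1, e2⟩ := half_facts x
    have e3 := Real.sin_sq_add_cos_sq (x / 2)
    unfold Q
    simp only [hu', hu, Pi.add_apply, Pi.mul_apply, Pi.neg_apply]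
    linear_combination (-(p x * Real.sin (x / 2) + q x * Real.cos (x / 2)) / 2) * e1 -
      ((p x * Real.cos (x / 2) - q x * Real.sin (x / 2)) / 2) * e2 - (p x * Real.cos (x / 2)) * e3
  have h3 := real_eq h1 h2 (2 * Real.pi)
  have e0 : u 0 = -p 0 := by simp [hu]
  have e0' : u' 0 = q 0 / 2 := by simp [hu']
  have e2 : u (2 * Real.pi) = p (2 * Real.pi) := by
    simp only [hu]
    rw [pi_facts.1, pi_facts.2]; ring
  have e2' : u' (2 * Real.pi) = -q (2 * Real.pi) / 2 := by
    simp only [hu']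
    rw [pi_facts.1, pi_facts.2, Real.sin_two_pi]
    ring
  rw [e0, e0', e2, e2'] at h3
  exact h3

theorem pq_one {p q : ℝ → ℝ} (hp : ∀ x, HasDerivAt p ((1 - Real.cos x) * q x) x)
    (hq : ∀ x, HasDerivAt q ((1 + Real.cos x) * p x) x) (p0 : p 0 = 1) (q0 : q 0 = 0) :
    1 < p (2 * Real.pi) := by
  have hc : ∀ x, 0 ≤ 1 - Real.cos x := fun x => by have := Real.cos_le_one x; linarith
  have hc' : ∀ x, 0 ≤ 1 + Real.cos x := fun x => by have := Real.neg_one_le_cos x; linarith
  have h1 := coop hc hc' hp hq p0 q0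
  have hpi := Real.pi_pos
  -- q ≥ x + sin x
  have hq1 : MonotoneOn (fun x => q x - (x + Real.sin x)) (Ici 0) := by
    have hd : ∀ x, HasDerivAt (fun x => q x - (x + Real.sin x))
        ((1 + Real.cos x) * p x - (1 + Real.cos x)) x := fun x =>
      (hq x).sub ((hasDerivAt_id x).add (Real.hasDerivAt_sin x))
    refine monotoneOn_of_deriv_nonneg (convex_Ici 0)
      (continuous_iff_continuousAt.2 fun x => (hd x).continuousAt).continuousOn
      (fun x _ => (hd x).differentiableAt.differentiableWithinAt) fun x hx => ?_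
    rw [interior_Ici] at hx
    rw [(hd x).deriv]
    have := (h1 x (le_of_lt hx)).1
    nlinarith [hc' x]
  have hq2 : ∀ x, 0 ≤ x → x + Real.sin x ≤ q x := by
    intro x hx
    have := hq1 (mem_Ici.2 le_rfl) (mem_Ici.2 hx) hx
    simp only [q0, Real.sin_zero] at this
    linarith
  have hp1 : MonotoneOn (fun x => p x - (x ^ 2 / 2 - 2 * Real.cos x - x * Real.sin x -
      Real.sin x ^ 2 / 2)) (Ici 0) := by
    have hd : ∀ x, HasDerivAt (fun x => p x - (x ^ 2 / 2 - 2 * Real.cos x - x * Real.sin x -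
      Real.sin x ^ 2 / 2)) ((1 - Real.cos x) * q x - (1 - Real.cos x) * (x + Real.sin x)) x := by
      intro x
      have ha : HasDerivAt (fun x : ℝ => x ^ 2 / 2) x x := by
        have := ((hasDerivAt_id x).fun_pow 2).div_const 2
        refine this.congr_deriv ?_
        simp
      have hb : HasDerivAt (fun x : ℝ => Real.sin x ^ 2 / 2) (Real.sin x * Real.cos x) x := by
        have := ((Real.hasDerivAt_sin x).fun_pow 2).div_const 2
        refine this.congr_deriv ?_
        simp; ring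
      have hcc : HasDerivAt (fun x : ℝ => 2 * Real.cos x) (2 * -Real.sin x) x :=
        (Real.hasDerivAt_cos x).const_mul 2
      have hdd : HasDerivAt (fun x : ℝ => x * Real.sin x) (1 * Real.sin x + x * Real.cos x) x :=
        (hasDerivAt_id x).mul (Real.hasDerivAt_sin x)
      have := (hp x).sub (((ha.sub hcc).sub hdd).sub hb)
      refine this.congr_deriv ?_
      ring
    refine monotoneOn_of_deriv_nonneg (convex_Ici 0)
      (continuous_iff_continuousAt.2 fun x => (hd x).continuousAt).continuousOn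
      (fun x _ => (hd x).differentiableAt.differentiableWithinAt) fun x hx => ?_
    rw [interior_Ici] at hx
    rw [(hd x).deriv]
    have := hq2 x (le_of_lt hx)
    nlinarith [hc x]
  have h2 := hp1 (mem_Ici.2 le_rfl) (mem_Ici.2 (by positivity : 0 ≤ 2 * Real.pi))
    (by positivity : 0 ≤ 2 * Real.pi)
  simp only [p0, Real.cos_zero, Real.sin_zero, Real.cos_two_pi, Real.sin_two_pi] at h2
  nlinarith [sq_nonneg Real.pi, mul_pos hpi hpi]

theorem Dl_mid : (Dl ((-1 / 4 : ℝ) : ℂ)).re < -2 := by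
  have hc : ∀ x, 0 ≤ 1 - Real.cos x := fun x => by have := Real.cos_le_one x; linarith
  have hc' : ∀ x, 0 ≤ 1 + Real.cos x := fun x => by have := Real.neg_one_le_cos x; linarith
  obtain ⟨p, q, p0, q0, hp, hq⟩ := exists_pq 1 0
  obtain ⟨P, R, P0, R0, hP, hR⟩ := exists_pq 0 1
  have h1 := pq_one hp hq p0 q0
  have h2 := (coop hc' hc hR hP R0 P0 (2 * Real.pi) (by positivity)).1
  have e1 := pq_hill hp hq
  have e2 := pq_hill hP hR
  rw [mono, p0, q0] at e1
  rw [mono, P0, R0] at e2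
  simp only [Prod.mk.injEq] at e1 e2
  have f1 : cc ((-1 / 4 : ℝ) : ℂ) = -(p (2 * Real.pi) : ℂ) := by
    have := e1.1
    simp at this
    simp [this]
  have f2 : sd ((-1 / 4 : ℝ) : ℂ) = -(R (2 * Real.pi) : ℂ) := by
    have := e2.2
    simp at this
    have h3 : (2 : ℂ) * (-(R (2 * Real.pi) : ℂ) / 2) = 2 * (1 / 2 * sd (-1 / 4)) := by
      rw [this]; ring
    push_cast
    linear_combination -h3
  unfold Dl
  rw [f1, f2]
  simp only [Complex.add_re, Complex.neg_re, Complex.ofReal_re]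
  linarith

/-- the critical point -/
theorem exists_crit : ∃ m : ℝ, deriv Dl (m : ℂ) = 0 ∧ (Dl (m : ℂ)).re < -2 := by
  set f : ℝ → ℝ := fun t => (Dl (t : ℂ)).re with hf
  have hd : ∀ t : ℝ, HasDerivAt (fun t : ℝ => Dl (t : ℂ)) (deriv Dl t) t := fun t =>
    (Dl_diff t).hasDerivAt.comp_ofReal
  have hfd : ∀ t : ℝ, HasDerivAt f (deriv Dl t).re t := fun t =>
    Complex.reCLM.hasFDerivAt.comp_hasDerivAt t (hd t)
  have hfi : ∀ t : ℝ, (deriv Dl (t : ℂ)).im = 0 := by
    intro t
    have h1 : HasDerivAt (fun t : ℝ => (Dl (t : ℂ)).im) (deriv Dl t).im t :=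
      Complex.imCLM.hasFDerivAt.comp_hasDerivAt t (hd t)
    have h2 : (fun t : ℝ => (Dl (t : ℂ)).im) = fun _ => 0 := by funext t; exact Dl_real t
    rw [h2] at h1
    exact h1.unique (hasDerivAt_const t 0)
  have hcont : Continuous f := continuous_iff_continuousAt.2 fun t => (hfd t).continuousAt
  obtain ⟨m, hm, hmin⟩ := isCompact_Icc.exists_isMinOn (s := Icc (-5 / 4 : ℝ) (3 / 4))
    ⟨0, by constructor <;> norm_num⟩ hcont.continuousOn
  have h0 : f m ≤ f (-1 / 4) := hmin (by constructor <;> norm_num)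
  have h1 : f (-1 / 4) < -2 := Dl_mid
  have h2 : f (-5 / 4) = -2 := by rw [hf]; simp only; rw [Dl_s]; simp
  have h3 : f (3 / 4) = -2 := by rw [hf]; simp only; rw [Dl_c]; simp
  have hne1 : m ≠ -5 / 4 := by rintro rfl; linarith
  have hne2 : m ≠ 3 / 4 := by rintro rfl; linarith
  have hmI : m ∈ Ioo (-5 / 4 : ℝ) (3 / 4) :=
    ⟨lt_of_le_of_ne hm.1 (Ne.symm hne1), lt_of_le_of_ne hm.2 hne2⟩
  have hloc : IsLocalMin f m := hmin.isLocalMin (Icc_mem_nhds hmI.1 hmI.2)
  have h4 := hloc.hasDerivAt_eq_zero (hfd m)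
  refine ⟨m, Complex.ext h4 (hfi m), lt_of_le_of_lt h0 h1⟩

end Pool.Agent.H751R3.Fq
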