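import Mathlib
import Pool.Agent.H751R3.Fq.Crit

set_option autoImplicit false

/-! The discriminant is not even about any real point. -/

namespace Pool.Agent.H751R3.Fq

open MeasureTheory Set Filter Topology

/-- real solutions -/
theorem real_parts (mu : ℝ) {v : ℂ × ℂ} :
    (∀ x, HasDerivAt (fun x => (HY mu v x).1.re) (HY mu v x).2.re x) ∧
    (∀ x, HasDerivAt (fun x => (HY mu v x).2.re) ((Q x + mu) * (HY mu v x).1.re) x) := by
  constructor
  · intro x
    exact Complex.reCLM.hasFDerivAt.comp_hasDerivAt x (HY_fst mu v x)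
  · intro x
    have h : HasDerivAt (fun x => (HY mu v x).2.re) _ x :=
      Complex.reCLM.hasFDerivAt.comp_hasDerivAt x (HY_snd mu v x)
    refine h.congr_deriv ?_
    have : (Q x : ℂ) + mu = ((Q x + mu : ℝ) : ℂ) := by push_cast; ring
    rw [this]
    exact Complex.re_ofReal_mul _ _

theorem Dl_large {mu : ℝ} (hmu : 4 ≤ mu) : 2 + (mu - 3) ≤ (Dl mu).re := by
  have hQ : ∀ x, mu - 3 ≤ Q x + mu := fun x => by
    have := (abs_le.1 (Q_abs x)).1; linarith
  have hQ0 : ∀ x, 0 ≤ Q x + mu := fun x => by have := hQ x; linarith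
  have hpi : 3 < Real.pi := Real.pi_gt_three
  obtain ⟨c1, c2⟩ := real_parts mu (v := (1, 0))
  obtain ⟨s1, s2⟩ := real_parts mu (v := (0, 1))
  set c : ℝ → ℝ := fun x => (HY mu (1, 0) x).1.re with hc
  set c' : ℝ → ℝ := fun x => (HY mu (1, 0) x).2.re with hc'
  set s : ℝ → ℝ := fun x => (HY mu (0, 1) x).1.re with hs
  set s' : ℝ → ℝ := fun x => (HY mu (0, 1) x).2.re with hs'
  have c0 : c 0 = 1 := by simp [hc, HY_zero]
  have c0' : c' 0 = 0 := by simp [hc', HY_zero]
  have s0 : s 0 = 0 := by simp [hs, HY_zero]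
  have s0' : s' 0 = 1 := by simp [hs', HY_zero]
  have hcc := coop (al := fun _ => 1) (be := fun x => Q x + mu) (p := c) (q := c')
    (fun _ => zero_le_one) hQ0 (fun x => by simpa using c1 x) c2 c0 c0'
  have hss := coop (al := fun x => Q x + mu) (be := fun _ => 1) (p := s') (q := s)
    hQ0 (fun _ => zero_le_one) s2 (fun x => by simpa using s1 x) s0' s0
  have h1 : MonotoneOn (fun x => c' x - (mu - 3) * x) (Ici 0) := by
    have hd : ∀ x, HasDerivAt (fun x => c' x - (mu - 3) * x) ((Q x + mu) * c x - (mu - 3) * 1) x :=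
      fun x => (c2 x).sub ((hasDerivAt_id x).const_mul _)
    refine monotoneOn_of_deriv_nonneg (convex_Ici 0)
      (continuous_iff_continuousAt.2 fun x => (hd x).continuousAt).continuousOn
      (fun x _ => (hd x).differentiableAt.differentiableWithinAt) fun x hx => ?_
    rw [interior_Ici] at hx
    rw [(hd x).deriv]
    have h1 := (hcc x (le_of_lt hx)).1
    have h2 := hQ x
    nlinarith
  have h2 : ∀ x, 0 ≤ x → (mu - 3) * x ≤ c' x := by
    intro x hx
    have := h1 (mem_Ici.2 le_rfl) (mem_Ici.2 hx) hx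
    simp only [c0', mul_zero] at this
    linarith
  have h3 : MonotoneOn (fun x => c x - (mu - 3) * (x ^ 2 / 2)) (Ici 0) := by
    have hd : ∀ x, HasDerivAt (fun x => c x - (mu - 3) * (x ^ 2 / 2)) (c' x - (mu - 3) * x) x := by
      intro x
      have ha : HasDerivAt (fun x : ℝ => x ^ 2 / 2) x x := by
        have := ((hasDerivAt_id x).fun_pow 2).div_const 2
        refine this.congr_deriv ?_
        simp
      exact (c1 x).sub (ha.const_mul _)
    refine monotoneOn_of_deriv_nonneg (convex_Ici 0)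
      (continuous_iff_continuousAt.2 fun x => (hd x).continuousAt).continuousOn
      (fun x _ => (hd x).differentiableAt.differentiableWithinAt) fun x hx => ?_
    rw [interior_Ici] at hx
    rw [(hd x).deriv]
    have := h2 x (le_of_lt hx)
    linarith
  have h4 := h3 (mem_Ici.2 le_rfl) (mem_Ici.2 (by positivity : 0 ≤ 2 * Real.pi))
    (by positivity : 0 ≤ 2 * Real.pi)
  simp only [c0] at h4
  have h5 := (hss (2 * Real.pi) (by positivity)).1
  have h6 : (Dl mu).re = c (2 * Real.pi) + s' (2 * Real.pi) := by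
    unfold Dl cc sd
    rw [Complex.add_re]
  rw [h6]
  have h7 : 1 ≤ (2 * Real.pi) ^ 2 / 2 := by nlinarith
  nlinarith

theorem energy {nu : ℝ} (hnu : 1 ≤ nu) {u u' : ℝ → ℝ} (h1 : ∀ x, HasDerivAt u (u' x) x)
    (h2 : ∀ x, HasDerivAt u' ((Q x + -nu) * u x) x) (x : ℝ) (hx : 0 ≤ x) :
    nu * u x ^ 2 + u' x ^ 2 ≤ (nu * u 0 ^ 2 + u' 0 ^ 2) * Real.exp (3 * x) := by
  have hd : ∀ x, HasDerivAt (fun x => (nu * u x ^ 2 + u' x ^ 2) * Real.exp (-(3 * x)))
      ((2 * Q x * (u x * u' x)) * Real.exp (-(3 * x)) +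
        (nu * u x ^ 2 + u' x ^ 2) * (Real.exp (-(3 * x)) * (-3))) x := by
    intro x
    have ha := (((h1 x).fun_pow 2).const_mul nu).add ((h2 x).fun_pow 2)
    have hb : HasDerivAt (fun x : ℝ => Real.exp (-(3 * x))) (Real.exp (-(3 * x)) * (-3)) x := by
      have := ((hasDerivAt_id x).const_mul 3).neg.exp
      refine this.congr_deriv ?_
      simp
    have hc : HasDerivAt (fun x => nu * u x ^ 2 + u' x ^ 2) (2 * Q x * (u x * u' x)) x := by
      refine ha.congr_deriv ?_
      norm_num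
      ring
    exact hc.mul hb
  have hanti : Antitone fun x => (nu * u x ^ 2 + u' x ^ 2) * Real.exp (-(3 * x)) := by
    refine antitone_of_hasDerivAt_nonpos hd fun x => ?_
    have h3 : 2 * Q x * (u x * u' x) ≤ 3 * (nu * u x ^ 2 + u' x ^ 2) := by
      have h4 := abs_le.1 (Q_abs x)
      have h5 : |2 * Q x * (u x * u' x)| ≤ 3 * (u x ^ 2 + u' x ^ 2) := by
        have h6 : |2 * Q x * (u x * u' x)| = |Q x| * (2 * |u x| * |u' x|) := by
          rw [abs_mul, abs_mul, abs_mul, abs_two]; ring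
        rw [h6]
        have h7 : 2 * |u x| * |u' x| ≤ u x ^ 2 + u' x ^ 2 := by
          have := two_mul_le_add_sq |u x| |u' x|
          rwa [sq_abs, sq_abs] at this
        exact mul_le_mul (Q_abs x) h7 (by positivity) (by norm_num)
      have h8 : u x ^ 2 ≤ nu * u x ^ 2 := by nlinarith [sq_nonneg (u x)]
      linarith [le_abs_self (2 * Q x * (u x * u' x))]
    show (2 * Q x * (u x * u' x)) * Real.exp (-(3 * x)) +
        (nu * u x ^ 2 + u' x ^ 2) * (Real.exp (-(3 * x)) * (-3)) ≤ 0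
    have he := Real.exp_pos (-(3 * x))
    nlinarith
  have h3 := hanti hx
  simp only [mul_zero, neg_zero, Real.exp_zero, mul_one] at h3
  have h4 : Real.exp (-(3 * x)) * Real.exp (3 * x) = 1 := by rw [← Real.exp_add]; simp
  calc nu * u x ^ 2 + u' x ^ 2 = ((nu * u x ^ 2 + u' x ^ 2) * Real.exp (-(3 * x))) *
        Real.exp (3 * x) := by rw [mul_assoc, h4, mul_one]
    _ ≤ _ := mul_le_mul_of_nonneg_right h3 (Real.exp_pos _).le

theorem Dl_small {nu : ℝ} (hnu : 1 ≤ nu) : (Dl ((-nu : ℝ) : ℂ)).re ≤ 2 * Real.exp (6 * Real.pi) := by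
  obtain ⟨c1, c2⟩ := real_parts (-nu) (v := (1, 0))
  obtain ⟨s1, s2⟩ := real_parts (-nu) (v := (0, 1))
  have hb : (0 : ℝ) ≤ 2 * Real.pi := by positivity
  have e1 := energy hnu c1 c2 (2 * Real.pi) hb
  have e2 := energy hnu s1 s2 (2 * Real.pi) hb
  simp only [HY_zero] at e1 e2
  have hexp : 3 * (2 * Real.pi) = 6 * Real.pi := by ring
  rw [hexp] at e1 e2
  set E := Real.exp (6 * Real.pi) with hE
  have hE1 : 1 ≤ E := Real.one_le_exp (by positivity)
  have f1 : (HY ((-nu : ℝ) : ℂ) (1, 0) (2 * Real.pi)).1.re ^ 2 ≤ E := by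
    norm_num at e1
    have h0 := sq_nonneg (HY ((-nu : ℝ) : ℂ) (1, 0) (2 * Real.pi)).2.re
    push_cast at h0 ⊢
    have : nu * (HY (-(nu : ℂ)) (1, 0) (2 * Real.pi)).1.re ^ 2 ≤ nu * E := by linarith
    exact le_of_mul_le_mul_left this (by linarith)
  have f2 : (HY ((-nu : ℝ) : ℂ) (0, 1) (2 * Real.pi)).2.re ^ 2 ≤ E := by
    norm_num at e2
    have h0 := sq_nonneg (HY ((-nu : ℝ) : ℂ) (0, 1) (2 * Real.pi)).1.re
    push_cast at h0 ⊢
    have : 0 ≤ nu * (HY (-(nu : ℂ)) (0, 1) (2 * Real.pi)).1.re ^ 2 := by positivity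
    linarith
  have key : ∀ a : ℝ, a ^ 2 ≤ E → a ≤ E := by
    intro a ha
    by_contra h
    push Not at h
    nlinarith
  have g1 := key _ f1
  have g2 := key _ f2
  unfold Dl cc sd
  rw [Complex.add_re]
  linarith

theorem not_even (m : ℝ) : ¬ ∀ s : ℂ, Dl (m + s) = Dl (m - s) := by
  intro h
  set E := Real.exp (6 * Real.pi) with hE
  have hE1 : 0 < E := Real.exp_pos _
  set R : ℝ := |m| + 4 + 2 * E + |m| with hR
  have hm1 := le_abs_self m
  have hm2 := neg_abs_le m
  have h1 := h (R : ℂ)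
  have e1 : (m : ℂ) + R = ((m + R : ℝ) : ℂ) := by push_cast; ring
  have e2 : (m : ℂ) - R = ((-(R - m) : ℝ) : ℂ) := by push_cast; ring
  rw [e1, e2] at h1
  have h2 := Dl_large (mu := m + R) (by rw [hR]; linarith)
  have h3 := Dl_small (nu := R - m) (by rw [hR]; linarith)
  rw [h1] at h2
  rw [hR] at h2
  linarith

end Pool.Agent.H751R3.Fq
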