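import Mathlib

set_option autoImplicit false

/-! Linear algebra of a pathology of the first kind. -/

namespace Pool.Agent.H751R3.Fq

open Filter Topology Matrix

abbrev V4 := Fin 4 → ℂ
abbrev M4 := Matrix (Fin 4) (Fin 4) ℂ

/-- data of the local picture -/
structure Loc (N : ℂ → M4) (a b : ℂ → ℂ) (u w : ℂ → V4) (u1 w1 : V4) : Prop where
  N_cont : ContinuousAt N 0
  a_an : AnalyticAt ℂ a 0
  b_cont : ContinuousAt b 0
  a_d : HasDerivAt a 0 0
  b_d : HasDerivAt b 0 0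
  u_d : HasDerivAt u u1 0
  w_d : HasDerivAt w w1 0
  eig_u : ∀ s, N (s ^ 2) *ᵥ u s = a s • u s
  eig_w : ∀ s, N (s ^ 2) *ᵥ w s = b s • w s
  ab : a 0 ≠ b 0
  a_ne : ∀ᶠ s in 𝓝[≠] (0 : ℂ), a s ≠ a (-s)
  b_ne : ∀ᶠ s in 𝓝[≠] (0 : ℂ), b s ≠ b (-s)
  li_u : ∀ x y : ℂ, x • u 0 + y • u1 = 0 → x = 0 ∧ y = 0
  li_w : ∀ x y : ℂ, x • w 0 + y • w1 = 0 → x = 0 ∧ y = 0

variable {N : ℂ → M4} {a b : ℂ → ℂ} {u w : ℂ → V4} {u1 w1 : V4}

/-- the symmetric difference quotient -/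
noncomputable def dq (u : ℂ → V4) (s : ℂ) : V4 := (2 * s)⁻¹ • (u s - u (-s))

theorem dq_tendsto (h : HasDerivAt u u1 0) : Tendsto (dq u) (𝓝[≠] 0) (𝓝 u1) := by
  have h1 : Tendsto (fun s : ℂ => s⁻¹ • (u s - u 0)) (𝓝[≠] 0) (𝓝 u1) := by
    have := h.tendsto_slope_zero
    simpa using this
  have hneg : Tendsto (fun s : ℂ => -s) (𝓝[≠] 0) (𝓝[≠] 0) := by
    refine tendsto_nhdsWithin_iff.2 ⟨?_, ?_⟩
    · have : Tendsto (fun s : ℂ => -s) (𝓝 0) (𝓝 (-0)) := continuous_neg.tendsto 0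
      rw [neg_zero] at this
      exact this.mono_left nhdsWithin_le_nhds
    · filter_upwards [self_mem_nhdsWithin] with s hs
      simpa using hs
  have h2 := h1.comp hneg
  have h3 := (h1.add h2).const_smul (1 / 2 : ℂ)
  have h4 : (1 / 2 : ℂ) • (u1 + u1) = u1 := by
    rw [← two_smul ℂ u1, smul_smul]; norm_num
  rw [h4] at h3
  refine h3.congr' ?_
  filter_upwards [self_mem_nhdsWithin] with s hs
  have hs' : s ≠ 0 := hs
  simp only [Function.comp_apply, dq]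
  funext i
  simp only [Pi.smul_apply, Pi.add_apply, Pi.sub_apply, smul_eq_mul]
  field_simp
  ring

theorem mulVec_tendsto {f : ℂ → M4} {g : ℂ → V4} {l : Filter ℂ} {F : M4} {G : V4}
    (hf : Tendsto f l (𝓝 F)) (hg : Tendsto g l (𝓝 G)) :
    Tendsto (fun s => f s *ᵥ g s) l (𝓝 (F *ᵥ G)) := by
  rw [tendsto_pi_nhds]
  intro i
  simp only [Matrix.mulVec, dotProduct]
  refine tendsto_finsetSum _ fun j _ => ?_
  have h1 : Tendsto (fun s => f s i j) l (𝓝 (F i j)) :=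
    (continuous_apply j).continuousAt.tendsto.comp
      ((continuous_apply i).continuousAt.tendsto.comp hf)
  have h2 : Tendsto (fun s => g s j) l (𝓝 (G j)) := (continuous_apply j).continuousAt.tendsto.comp hg
  exact h1.mul h2

theorem sq_tendsto : Tendsto (fun s : ℂ => s ^ 2) (𝓝 0) (𝓝 0) := by
  have : Tendsto (fun s : ℂ => s ^ 2) (𝓝 0) (𝓝 (0 ^ 2)) := (continuous_pow 2).tendsto 0
  rwa [zero_pow two_ne_zero] at this

theorem limit_eig (hN : ContinuousAt N 0) (ha : HasDerivAt a 0 0) (hu : HasDerivAt u u1 0)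
    (he : ∀ s, N (s ^ 2) *ᵥ u s = a s • u s) :
    N 0 *ᵥ u 0 = a 0 • u 0 ∧ N 0 *ᵥ u1 = a 0 • u1 := by
  constructor
  · have := he 0
    rwa [zero_pow two_ne_zero] at this
  · have hN2 : Tendsto (fun s : ℂ => N (s ^ 2)) (𝓝[≠] 0) (𝓝 (N 0)) :=
      (hN.tendsto.comp sq_tendsto).mono_left nhdsWithin_le_nhds
    have h1 : Tendsto (fun s => N (s ^ 2) *ᵥ dq u s) (𝓝[≠] 0) (𝓝 (N 0 *ᵥ u1)) :=
      mulVec_tendsto hN2 (dq_tendsto hu)
    have hau : HasDerivAt (fun s => a s • u s) (a 0 • u1 + (0 : ℂ) • u 0) 0 := ha.smul hu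
    rw [zero_smul, add_zero] at hau
    have h2 : Tendsto (dq (fun s => a s • u s)) (𝓝[≠] 0) (𝓝 (a 0 • u1)) := dq_tendsto hau
    have h3 : ∀ s, N (s ^ 2) *ᵥ dq u s = dq (fun s => a s • u s) s := by
      intro s
      unfold dq
      rw [Matrix.mulVec_smul, Matrix.mulVec_sub, he s]
      have h4 := he (-s)
      rw [neg_sq] at h4
      rw [h4]
    exact tendsto_nhds_unique h1 (h2.congr fun s => (h3 s).symm)

theorem isRoot_of {A : M4} {c : ℂ} {v : V4} (hv : v ≠ 0) (h : A *ᵥ v = c • v) :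
    A.charpoly.IsRoot c := by
  rw [← Matrix.charpoly_toLin', ← Module.End.hasEigenvalue_iff_isRoot_charpoly]
  exact Module.End.hasEigenvalue_of_hasEigenvector ⟨Module.End.mem_eigenspace_iff.2 (by
    rw [Matrix.toLin'_apply]; exact h), hv⟩

theorem expand {x : Fin 4 → V4} (hli : LinearIndependent ℂ x) (v : V4) :
    ∃ f : Fin 4 → ℂ, ∑ j, f j • x j = v := by
  have h1 := hli.span_eq_top_of_card_eq_finrank' (by simp)
  have h2 : v ∈ Submodule.span ℂ (Set.range x) := by rw [h1]; trivial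
  exact (Submodule.mem_span_range_iff_exists_fun ℂ).1 h2

/-- one dimensional eigenspaces -/
theorem eig_line {A : M4} {c : Fin 4 → ℂ} (hc : Function.Injective c) {x : Fin 4 → V4}
    (hx : ∀ i, x i ≠ 0) (he : ∀ i, A *ᵥ x i = c i • x i) {v : V4} {i : Fin 4}
    (hv : A *ᵥ v = c i • v) : ∃ t : ℂ, v = t • x i := by
  have hli : LinearIndependent ℂ x := by
    refine Module.End.eigenvectors_linearIndependent' (Matrix.toLin' A) c hc x fun i => ?_
    exact ⟨Module.End.mem_eigenspace_iff.2 (by rw [Matrix.toLin'_apply]; exact he i), hx i⟩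
  obtain ⟨f, rfl⟩ := expand hli v
  have h2 : ∑ j, (f j * (c j - c i)) • x j = 0 := by
    have h3 : A *ᵥ (∑ j, f j • x j) - c i • (∑ j, f j • x j) = 0 := by rw [hv, sub_self]
    rw [Matrix.mulVec_sum, Finset.smul_sum, ← Finset.sum_sub_distrib] at h3
    rw [← h3]
    refine Finset.sum_congr rfl fun j _ => ?_
    rw [Matrix.mulVec_smul, he j, smul_smul, smul_smul, ← sub_smul]
    congr 1
    ring
  have h4 := Fintype.linearIndependent_iff.1 hli _ h2
  refine ⟨f i, Finset.sum_eq_single i (fun j _ hj => ?_) (by simp)⟩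
  have h5 := h4 j
  rcases mul_eq_zero.1 h5 with h6 | h6
  · rw [h6, zero_smul]
  · exact absurd (hc (sub_eq_zero.1 h6)) hj

/-- the limit eigenspace -/
theorem eig_plane {A : M4} {α β : ℂ} (hab : α ≠ β) {x0 x1 y0 y1 : V4}
    (hx0 : A *ᵥ x0 = α • x0) (hx1 : A *ᵥ x1 = α • x1)
    (hy0 : A *ᵥ y0 = β • y0) (hy1 : A *ᵥ y1 = β • y1)
    (hx : ∀ p q : ℂ, p • x0 + q • x1 = 0 → p = 0 ∧ q = 0)
    (hy : ∀ p q : ℂ, p • y0 + q • y1 = 0 → p = 0 ∧ q = 0) {v : V4} :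
    A *ᵥ v = α • v ↔ v ∈ Submodule.span ℂ {x0, x1} := by
  have key : ∀ p q r t : ℂ, A *ᵥ (p • x0 + q • x1 + r • y0 + t • y1) -
      α • (p • x0 + q • x1 + r • y0 + t • y1) = (β - α) • (r • y0 + t • y1) := by
    intro p q r t
    rw [Matrix.mulVec_add, Matrix.mulVec_add, Matrix.mulVec_add, Matrix.mulVec_smul,
      Matrix.mulVec_smul, Matrix.mulVec_smul, Matrix.mulVec_smul, hx0, hx1, hy0, hy1]
    funext i
    simp only [Pi.add_apply, Pi.sub_apply, Pi.smul_apply, smul_eq_mul]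
    ring
  have hba : β - α ≠ 0 := sub_ne_zero.2 (Ne.symm hab)
  have hli : LinearIndependent ℂ ![x0, x1, y0, y1] := by
    rw [Fintype.linearIndependent_iff]
    intro g hg
    rw [Fin.sum_univ_four] at hg
    simp only [Matrix.cons_val_zero, Matrix.cons_val_one, Matrix.cons_val] at hg
    have h1 := key (g 0) (g 1) (g 2) (g 3)
    rw [hg, Matrix.mulVec_zero, smul_zero, sub_zero] at h1
    have h2 : g 2 • y0 + g 3 • y1 = 0 := by
      rcases smul_eq_zero.1 h1.symm with h | h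
      · exact absurd h hba
      · exact h
    obtain ⟨h3, h4⟩ := hy _ _ h2
    rw [h3, h4, zero_smul, zero_smul, add_zero, add_zero] at hg
    obtain ⟨h5, h6⟩ := hx _ _ hg
    intro i
    fin_cases i <;> assumption
  constructor
  · intro hv
    obtain ⟨f, hf⟩ := expand hli v
    rw [Fin.sum_univ_four] at hf
    simp only [Matrix.cons_val_zero, Matrix.cons_val_one, Matrix.cons_val] at hf
    have h1 := key (f 0) (f 1) (f 2) (f 3)
    rw [hf, hv, sub_self] at h1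
    have h2 : f 2 • y0 + f 3 • y1 = 0 := by
      rcases smul_eq_zero.1 h1.symm with h | h
      · exact absurd h hba
      · exact h
    obtain ⟨h3, h4⟩ := hy _ _ h2
    rw [h3, h4, zero_smul, zero_smul, add_zero, add_zero] at hf
    exact Submodule.mem_span_pair.2 ⟨_, _, hf⟩
  · intro hv
    obtain ⟨p, q, rfl⟩ := Submodule.mem_span_pair.1 hv
    rw [Matrix.mulVec_add, Matrix.mulVec_smul, Matrix.mulVec_smul, hx0, hx1]
    funext i
    simp only [Pi.add_apply, Pi.smul_apply, smul_eq_mul]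
    ring

variable (h : Loc N a b u w u1 w1)
include h

theorem Loc.lim_u : N 0 *ᵥ u 0 = a 0 • u 0 ∧ N 0 *ᵥ u1 = a 0 • u1 :=
  limit_eig h.N_cont h.a_d h.u_d h.eig_u

theorem Loc.lim_w : N 0 *ᵥ w 0 = b 0 • w 0 ∧ N 0 *ᵥ w1 = b 0 • w1 :=
  limit_eig h.N_cont h.b_d h.w_d h.eig_w

theorem Loc.u0_ne : u 0 ≠ 0 := by
  intro h0
  have := h.li_u 1 0 (by rw [h0]; simp)
  exact one_ne_zero this.1

theorem Loc.w0_ne : w 0 ≠ 0 := by
  intro h0
  have := h.li_w 1 0 (by rw [h0]; simp)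
  exact one_ne_zero this.1

omit h in
theorem neg_tendsto : Tendsto (fun s : ℂ => -s) (𝓝 0) (𝓝 0) := by
  have : Tendsto (fun s : ℂ => -s) (𝓝 0) (𝓝 (-0)) := continuous_neg.tendsto 0
  rwa [neg_zero] at this

omit h in
theorem neg_tendsto' : Tendsto (fun s : ℂ => -s) (𝓝[≠] 0) (𝓝[≠] 0) := by
  refine tendsto_nhdsWithin_iff.2 ⟨neg_tendsto.mono_left nhdsWithin_le_nhds, ?_⟩
  filter_upwards [self_mem_nhdsWithin] with s hs
  simpa using hs

/-- the four eigenvalues near `0` -/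
theorem Loc.four : ∀ᶠ s in 𝓝[≠] (0 : ℂ), Function.Injective ![a s, a (-s), b s, b (-s)] ∧
    u s ≠ 0 ∧ u (-s) ≠ 0 ∧ w s ≠ 0 ∧ w (-s) ≠ 0 := by
  have hac : ContinuousAt a 0 := h.a_d.continuousAt
  have hbc : ContinuousAt b 0 := h.b_cont
  have huc : ContinuousAt u 0 := h.u_d.continuousAt
  have hwc : ContinuousAt w 0 := h.w_d.continuousAt
  have ta' : Tendsto (fun s => a (-s)) (𝓝 0) (𝓝 (a 0)) := hac.tendsto.comp neg_tendsto
  have tb' : Tendsto (fun s => b (-s)) (𝓝 0) (𝓝 (b 0)) := hbc.tendsto.comp neg_tendsto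
  have tu' : Tendsto (fun s => u (-s)) (𝓝 0) (𝓝 (u 0)) := huc.tendsto.comp neg_tendsto
  have tw' : Tendsto (fun s => w (-s)) (𝓝 0) (𝓝 (w 0)) := hwc.tendsto.comp neg_tendsto
  have e1 : ∀ᶠ s in 𝓝 (0 : ℂ), a s ≠ b s := by
    have : Tendsto (fun s => a s - b s) (𝓝 0) (𝓝 (a 0 - b 0)) := hac.tendsto.sub hbc.tendsto
    filter_upwards [this.eventually_ne (sub_ne_zero.2 h.ab)] with s hs
    exact sub_ne_zero.1 hs
  have e2 : ∀ᶠ s in 𝓝 (0 : ℂ), a s ≠ b (-s) := by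
    have : Tendsto (fun s => a s - b (-s)) (𝓝 0) (𝓝 (a 0 - b 0)) := hac.tendsto.sub tb'
    filter_upwards [this.eventually_ne (sub_ne_zero.2 h.ab)] with s hs
    exact sub_ne_zero.1 hs
  have e3 : ∀ᶠ s in 𝓝 (0 : ℂ), a (-s) ≠ b s := by
    have : Tendsto (fun s => a (-s) - b s) (𝓝 0) (𝓝 (a 0 - b 0)) := ta'.sub hbc.tendsto
    filter_upwards [this.eventually_ne (sub_ne_zero.2 h.ab)] with s hs
    exact sub_ne_zero.1 hs
  have e4 : ∀ᶠ s in 𝓝 (0 : ℂ), a (-s) ≠ b (-s) := by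
    have : Tendsto (fun s => a (-s) - b (-s)) (𝓝 0) (𝓝 (a 0 - b 0)) := ta'.sub tb'
    filter_upwards [this.eventually_ne (sub_ne_zero.2 h.ab)] with s hs
    exact sub_ne_zero.1 hs
  have f1 : ∀ᶠ s in 𝓝 (0 : ℂ), u s ≠ 0 := huc.tendsto.eventually_ne h.u0_ne
  have f2 : ∀ᶠ s in 𝓝 (0 : ℂ), u (-s) ≠ 0 := tu'.eventually_ne h.u0_ne
  have f3 : ∀ᶠ s in 𝓝 (0 : ℂ), w s ≠ 0 := hwc.tendsto.eventually_ne h.w0_ne
  have f4 : ∀ᶠ s in 𝓝 (0 : ℂ), w (-s) ≠ 0 := tw'.eventually_ne h.w0_ne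
  filter_upwards [h.a_ne, h.b_ne, e1.filter_mono nhdsWithin_le_nhds,
    e2.filter_mono nhdsWithin_le_nhds, e3.filter_mono nhdsWithin_le_nhds,
    e4.filter_mono nhdsWithin_le_nhds, f1.filter_mono nhdsWithin_le_nhds,
    f2.filter_mono nhdsWithin_le_nhds, f3.filter_mono nhdsWithin_le_nhds,
    f4.filter_mono nhdsWithin_le_nhds] with s s1 s2 s3 s4 s5 s6 s7 s8 s9 s10
  refine ⟨?_, s7, s8, s9, s10⟩
  intro i j hij
  fin_cases i <;> fin_cases j <;> simp at hij ⊢ <;> first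
    | exact absurd hij s1 | exact absurd hij s2 | exact absurd hij s3 | exact absurd hij s4
    | exact absurd hij s5 | exact absurd hij s6 | exact absurd hij.symm s1
    | exact absurd hij.symm s2 | exact absurd hij.symm s3 | exact absurd hij.symm s4
    | exact absurd hij.symm s5 | exact absurd hij.symm s6

/-- the eigenspaces for the two branches are lines -/
theorem Loc.lines : ∀ᶠ s in 𝓝[≠] (0 : ℂ), (∀ v, N (s ^ 2) *ᵥ v = a s • v → ∃ t : ℂ, v = t • u s) ∧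
    (∀ v, N (s ^ 2) *ᵥ v = a (-s) • v → ∃ t : ℂ, v = t • u (-s)) := by
  filter_upwards [h.four] with s hs
  obtain ⟨hinj, n1, n2, n3, n4⟩ := hs
  have hneg : ∀ (f : ℂ → V4) (c : ℂ → ℂ), (∀ s, N (s ^ 2) *ᵥ f s = c s • f s) →
      N (s ^ 2) *ᵥ f (-s) = c (-s) • f (-s) := by
    intro f c hf
    have := hf (-s)
    rwa [neg_sq] at this
  have hx : ∀ i, ![u s, u (-s), w s, w (-s)] i ≠ 0 := by
    intro i; fin_cases i <;> assumption
  have he : ∀ i, N (s ^ 2) *ᵥ ![u s, u (-s), w s, w (-s)] i =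
      ![a s, a (-s), b s, b (-s)] i • ![u s, u (-s), w s, w (-s)] i := by
    intro i
    fin_cases i
    · exact h.eig_u s
    · exact hneg u a h.eig_u
    · exact h.eig_w s
    · exact hneg w b h.eig_w
  exact ⟨fun v hv => eig_line hinj hx he (i := 0) hv, fun v hv => eig_line hinj hx he (i := 1) hv⟩

end Pool.Agent.H751R3.Fq
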