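import Mathlib
import Pool.Agent.H751R3.Fq.Grow
import Pool.Agent.H751R3.Fq.Lin

set_option autoImplicit false

/-! The fourth order operator `(M - m)²` and its Floquet matrix. -/

namespace Pool.Agent.H751R3.Fq

open MeasureTheory Set Filter Topology BoundedContinuousFunction Matrix

/-- `Q'` -/
noncomputable def q1 (x : ℝ) : ℝ := 2 * Real.sin x * Real.cos x + 2 * Real.sin x
/-- `Q''` -/
noncomputable def q2 (x : ℝ) : ℝ := 2 * (Real.cos x ^ 2 - Real.sin x ^ 2) + 2 * Real.cos x

theorem Q_deriv (x : ℝ) : HasDerivAt Q (q1 x) x := by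
  have h := ((Real.hasDerivAt_sin x).fun_pow 2).sub ((Real.hasDerivAt_cos x).const_mul 2)
  refine h.congr_deriv ?_
  unfold q1; norm_num; try ring

theorem q1_deriv (x : ℝ) : HasDerivAt q1 (q2 x) x := by
  have h := (((Real.hasDerivAt_sin x).const_mul 2).mul (Real.hasDerivAt_cos x)).add
    ((Real.hasDerivAt_sin x).const_mul 2)
  refine h.congr_deriv ?_
  unfold q2; ring

theorem q1_cont : Continuous q1 := by unfold q1; fun_prop
theorem q2_cont : Continuous q2 := by unfold q2; fun_prop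

/-- coefficients -/
noncomputable def P0 (m x : ℝ) : ℝ := Q x ^ 2 - q2 x + 2 * m * Q x + m ^ 2
/-- coefficients -/
noncomputable def P1 (x : ℝ) : ℝ := -2 * q1 x
/-- coefficients -/
noncomputable def P2 (m x : ℝ) : ℝ := -2 * (Q x + m)

theorem q1_abs (x : ℝ) : |q1 x| ≤ 4 := by
  unfold q1
  have h1 := Real.abs_sin_le_one x; have h2 := Real.abs_cos_le_one x
  calc |2 * Real.sin x * Real.cos x + 2 * Real.sin x| ≤ |2 * Real.sin x * Real.cos x| +
        |2 * Real.sin x| := abs_add_le _ _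
    _ = 2 * (|Real.sin x| * |Real.cos x|) + 2 * |Real.sin x| := by
        rw [abs_mul, abs_mul, abs_two]; ring
    _ ≤ 4 := by nlinarith [abs_nonneg (Real.sin x), abs_nonneg (Real.cos x)]

theorem q2_abs (x : ℝ) : |q2 x| ≤ 4 := by
  unfold q2
  have h1 := Real.neg_one_le_sin x; have h2 := Real.sin_le_one x
  have h3 := Real.neg_one_le_cos x; have h4 := Real.cos_le_one x
  have h5 := Real.sin_sq_add_cos_sq x
  rw [abs_le]
  constructor <;> nlinarith

theorem P0_abs (m x : ℝ) : |P0 m x| ≤ 13 + 6 * |m| + m ^ 2 := by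
  unfold P0
  have h1 := abs_le.1 (Q_abs x); have h2 := abs_le.1 (q2_abs x)
  have h3 : |2 * m * Q x| ≤ 6 * |m| := by
    rw [abs_mul, abs_mul, abs_two]
    nlinarith [Q_abs x, abs_nonneg m]
  have h4 := abs_le.1 h3
  rw [abs_le]
  constructor <;> nlinarith [sq_nonneg m, sq_nonneg (Q x)]

theorem P1_abs (x : ℝ) : |P1 x| ≤ 8 := by
  unfold P1
  rw [abs_mul]
  have := q1_abs x
  norm_num
  linarith

theorem P2_abs (m x : ℝ) : |P2 m x| ≤ 6 + 2 * |m| := by
  unfold P2
  rw [abs_mul]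
  have h1 := abs_add_le (Q x) m
  have h2 := Q_abs x
  norm_num
  linarith

/-- elementary maps -/
noncomputable def El (i j : Fin 4) : V4 →L[ℂ] V4 :=
  (ContinuousLinearMap.single ℂ (fun _ : Fin 4 => ℂ) i).comp
    (ContinuousLinearMap.proj (R := ℂ) (φ := fun _ : Fin 4 => ℂ) j)

theorem El_apply (i j : Fin 4) (y : V4) : El i j y = Pi.single i (y j) := rfl

/-- the shift -/
noncomputable def Sh : V4 →L[ℂ] V4 := El 0 1 + El 1 2 + El 2 3

/-- coefficients -/
noncomputable def FA0 (m : ℝ) : ℝ →ᵇ (V4 →L[ℂ] V4) :=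
  ofNormedAddCommGroup (fun x => Sh + (-(P0 m x : ℂ)) • El 3 0 + (-(P1 x : ℂ)) • El 3 1 +
      (-(P2 m x : ℂ)) • El 3 2)
    (by
      have c1 : Continuous fun x : ℝ => -(P0 m x : ℂ) := by
        have := Q_cont; have := q2_cont
        unfold P0; fun_prop
      have c2 : Continuous fun x : ℝ => -(P1 x : ℂ) := by
        have := q1_cont
        unfold P1; fun_prop
      have c3 : Continuous fun x : ℝ => -(P2 m x : ℂ) := by
        have := Q_cont
        unfold P2; fun_prop
      exact ((continuous_const.add (c1.smul continuous_const)).add (c2.smul continuous_const)).add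
        (c3.smul continuous_const))
    (‖Sh‖ + (13 + 6 * |m| + m ^ 2) * ‖El 3 0‖ + 8 * ‖El 3 1‖ + (6 + 2 * |m|) * ‖El 3 2‖)
    (fun x => by
      refine (norm_add_le _ _).trans (add_le_add ((norm_add_le _ _).trans (add_le_add
        ((norm_add_le _ _).trans (add_le_add le_rfl ?_)) ?_)) ?_)
      · rw [norm_smul, norm_neg, Complex.norm_real, Real.norm_eq_abs]
        exact mul_le_mul_of_nonneg_right (P0_abs m x) (norm_nonneg _)
      · rw [norm_smul, norm_neg, Complex.norm_real, Real.norm_eq_abs]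
        exact mul_le_mul_of_nonneg_right (P1_abs x) (norm_nonneg _)
      · rw [norm_smul, norm_neg, Complex.norm_real, Real.norm_eq_abs]
        exact mul_le_mul_of_nonneg_right (P2_abs m x) (norm_nonneg _))

/-- coefficients -/
noncomputable def FA1 : ℝ →ᵇ (V4 →L[ℂ] V4) := BoundedContinuousFunction.const ℝ (El 3 0)

/-- right hand side of the first order system -/
noncomputable def rhs (m : ℝ) (lam : ℂ) (x : ℝ) (y : V4) : V4 :=
  ![y 1, y 2, y 3, lam * y 0 - (P0 m x * y 0 + P1 x * y 1 + P2 m x * y 2)]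

theorem FA_apply (m : ℝ) (lam : ℂ) (x : ℝ) (y : V4) :
    (FA0 m x + lam • FA1 x) y = rhs m lam x y := by
  change (Sh + (-(P0 m x : ℂ)) • El 3 0 + (-(P1 x : ℂ)) • El 3 1 +
      (-(P2 m x : ℂ)) • El 3 2 + lam • El 3 0) y = _
  unfold Sh rhs
  simp only [_root_.add_apply, _root_.smul_apply, El_apply]
  funext i
  fin_cases i
  · simp
  · simp
  · simp
  · simp; ring

/-- solutions of the fourth order equation as first order system -/
noncomputable def FY (m : ℝ) : ℂ → V4 → ℝ → V4 := (exists_sol (FA0 m) FA1).choose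

theorem FY_deriv (m : ℝ) (lam : ℂ) (v : V4) (x : ℝ) :
    HasDerivAt (FY m lam v) (rhs m lam x (FY m lam v x)) x := by
  have := (exists_sol (FA0 m) FA1).choose_spec.1 lam v x
  rw [FA_apply] at this
  exact this

theorem FY_zero (m : ℝ) (lam : ℂ) (v : V4) : FY m lam v 0 = v :=
  (exists_sol (FA0 m) FA1).choose_spec.2.1 lam v

theorem FY_diff (m : ℝ) (v : V4) (x : ℝ) : Differentiable ℂ (fun lam => FY m lam v x) :=
  (exists_sol (FA0 m) FA1).choose_spec.2.2 v x

theorem four_unique {m : ℝ} {lam : ℂ} {y z : ℝ → V4}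
    (hy : ∀ x, HasDerivAt y (rhs m lam x (y x)) x)
    (hz : ∀ x, HasDerivAt z (rhs m lam x (z x)) x)
    {x0 : ℝ} (h0 : y x0 = z x0) : y = z :=
  unique (FA0 m) FA1 lam (fun x => by rw [FA_apply]; exact hy x)
    (fun x => by rw [FA_apply]; exact hz x) h0

/-- the Floquet matrix -/
noncomputable def TT (m : ℝ) (lam : ℂ) : M4 :=
  Matrix.of fun k j => FY m lam (Pi.single j 1) (2 * Real.pi) k

theorem rhs_lin (m : ℝ) (lam : ℂ) (x : ℝ) (f : Fin 4 → ℂ) (y : Fin 4 → V4) :
    rhs m lam x (∑ j, f j • y j) = ∑ j, f j • rhs m lam x (y j) := by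
  rw [← FA_apply, map_sum]
  refine Finset.sum_congr rfl fun j _ => ?_
  rw [map_smul, FA_apply]

theorem TT_mulVec (m : ℝ) (lam : ℂ) (v : V4) :
    TT m lam *ᵥ v = FY m lam v (2 * Real.pi) := by
  have h := four_unique (m := m) (lam := lam) (y := FY m lam v)
    (z := fun x => ∑ j, v j • FY m lam (Pi.single j 1) x)
    (fun x => FY_deriv m lam v x) (fun x => by
      have h1 : HasDerivAt (fun x => ∑ j, v j • FY m lam (Pi.single j 1) x)
          (∑ j, v j • rhs m lam x (FY m lam (Pi.single j 1) x)) x :=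
        HasDerivAt.fun_sum fun j _ => (FY_deriv m lam (Pi.single j 1) x).const_smul (v j)
      refine h1.congr_deriv ?_
      exact (rhs_lin m lam x _ _).symm) (x0 := 0) (by
      simp only [FY_zero]
      exact (pi_eq_sum_univ' v).trans (by
        refine Finset.sum_congr rfl fun j _ => ?_
        funext i
        simp [Pi.single_apply, eq_comm]))
  rw [h]
  funext k
  simp only [Matrix.mulVec, dotProduct, TT, Matrix.of_apply, Finset.sum_apply, Pi.smul_apply,
    smul_eq_mul]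
  exact Finset.sum_congr rfl fun j _ => mul_comm _ _

theorem TT_cont (m : ℝ) : ContinuousAt (TT m) 0 := by
  have : Continuous (TT m) := by
    refine continuous_matrix fun k j => ?_
    have := (FY_diff m (Pi.single j 1) (2 * Real.pi)).continuous
    exact (continuous_apply k).comp this
  exact this.continuousAt

/-- jets -/
noncomputable def jet (mu : ℂ) (x : ℝ) (v : ℂ × ℂ) : V4 :=
  ![v.1, v.2, ((Q x : ℂ) + mu) * v.1, (q1 x : ℂ) * v.1 + ((Q x : ℂ) + mu) * v.2]

theorem jet_sol (m : ℝ) (mu : ℂ) (v : ℂ × ℂ) (x : ℝ) :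
    HasDerivAt (fun x => jet mu x (HY mu v x))
      (rhs m ((mu - m) ^ 2) x (jet mu x (HY mu v x))) x := by
  have d1 := HY_fst mu v x
  have d2 := HY_snd mu v x
  have dQ : HasDerivAt (fun x : ℝ => (Q x : ℂ)) (q1 x : ℂ) x := (Q_deriv x).ofReal_comp
  have dq : HasDerivAt (fun x : ℝ => (q1 x : ℂ)) (q2 x : ℂ) x := (q1_deriv x).ofReal_comp
  have d3 : HasDerivAt (fun x => ((Q x : ℂ) + mu) * (HY mu v x).1)
      ((q1 x : ℂ) * (HY mu v x).1 + ((Q x : ℂ) + mu) * (HY mu v x).2) x :=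
    (dQ.add_const mu).mul d1
  have d4 : HasDerivAt (fun x => (q1 x : ℂ) * (HY mu v x).1 + ((Q x : ℂ) + mu) * (HY mu v x).2)
      ((q2 x : ℂ) * (HY mu v x).1 + (q1 x : ℂ) * (HY mu v x).2 +
        ((q1 x : ℂ) * (HY mu v x).2 + ((Q x : ℂ) + mu) * (((Q x : ℂ) + mu) * (HY mu v x).1))) x :=
    (dq.mul d1).add ((dQ.add_const mu).mul d2)
  rw [hasDerivAt_pi]
  intro i
  fin_cases i
  · exact d1
  · exact d2
  · exact d3
  · refine d4.congr_deriv ?_
    simp only [rhs, jet, Fin.reduceFinMk, Matrix.cons_val_zero, Matrix.cons_val_one, Matrix.cons_val]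
    unfold P0 P1 P2
    push_cast
    ring

theorem jet_FY (m : ℝ) (mu : ℂ) (v : ℂ × ℂ) (x : ℝ) :
    FY m ((mu - m) ^ 2) (jet mu 0 v) x = jet mu x (HY mu v x) := by
  have h := four_unique (m := m) (lam := (mu - m) ^ 2) (y := FY m ((mu - m) ^ 2) (jet mu 0 v))
    (z := fun x => jet mu x (HY mu v x)) (fun x => FY_deriv m _ _ x) (fun x => jet_sol m mu v x)
    (x0 := 0) (by simp only [FY_zero, HY_zero])
  exact congrFun h x

theorem jet_per (mu : ℂ) (v : ℂ × ℂ) : jet mu (2 * Real.pi) v = jet mu 0 v := by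
  have h1 : Q (2 * Real.pi) = Q 0 := by simp [Q]
  have h2 : q1 (2 * Real.pi) = q1 0 := by simp [q1]
  unfold jet
  rw [h1, h2]

theorem TT_eig {m : ℝ} {mu r : ℂ} {v : ℂ × ℂ} (h : HY mu v (2 * Real.pi) = r • v) :
    TT m ((mu - m) ^ 2) *ᵥ jet mu 0 v = r • jet mu 0 v := by
  rw [TT_mulVec, jet_FY, jet_per, h]
  unfold jet
  funext i
  fin_cases i <;> simp <;> ring

end Pool.Agent.H751R3.Fq
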