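import Mathlib
import Pool.Agent.H751R3.Fq.Four

set_option autoImplicit false

/-! The local picture at the critical point. -/

namespace Pool.Agent.H751R3.Fq

open MeasureTheory Set Filter Topology Matrix

/-- the critical point -/
noncomputable def mS : ℝ := exists_crit.choose

theorem mS_deriv : deriv Dl (mS : ℂ) = 0 := exists_crit.choose_spec.1
theorem mS_re : (Dl (mS : ℂ)).re < -2 := exists_crit.choose_spec.2

theorem Dl_mS : Dl (mS : ℂ) = (((Dl (mS : ℂ)).re : ℝ) : ℂ) :=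
  Complex.ext rfl (by rw [Dl_real]; rfl)

theorem slit : Dl (mS : ℂ) ^ 2 - 4 ∈ Complex.slitPlane := by
  rw [Dl_mS]
  have h1 : (((Dl (mS : ℂ)).re : ℝ) : ℂ) ^ 2 - 4 = (((Dl (mS : ℂ)).re ^ 2 - 4 : ℝ) : ℂ) := by
    push_cast; ring
  rw [h1, Complex.ofReal_mem_slitPlane]
  nlinarith [mS_re]

/-- the square root of `Δ² - 4` -/
noncomputable def sqD (mu : ℂ) : ℂ := (Dl mu ^ 2 - 4) ^ (((2 : ℕ) : ℂ)⁻¹)

theorem sqD_sq (mu : ℂ) : sqD mu ^ 2 = Dl mu ^ 2 - 4 := Complex.cpow_nat_inv_pow _ two_ne_zero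

/-- the multipliers -/
noncomputable def rt (e : ℂ) (mu : ℂ) : ℂ := (Dl mu + e * sqD mu) / 2

theorem rt_eq {e : ℂ} (he : e ^ 2 = 1) (mu : ℂ) : rt e mu ^ 2 - Dl mu * rt e mu + 1 = 0 := by
  unfold rt
  have := sqD_sq mu
  linear_combination (e ^ 2 / 4) * this + ((Dl mu ^ 2 - 4) / 4) * he

theorem Dl_an (mu : ℂ) : AnalyticAt ℂ Dl mu := Dl_diff.analyticAt mu

theorem sqD_an : AnalyticAt ℂ sqD mS := by
  unfold sqD
  exact (((Dl_an _).pow 2).sub analyticAt_const).cpow analyticAt_const slit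

theorem rt_an (e : ℂ) : AnalyticAt ℂ (rt e) mS := by
  unfold rt
  exact ((Dl_an _).add (analyticAt_const.mul sqD_an)).div_const

theorem rt_deriv (e : ℂ) : HasDerivAt (rt e) 0 (mS : ℂ) := by
  have h1 : HasDerivAt Dl 0 (mS : ℂ) := by
    have := (Dl_diff (mS : ℂ)).hasDerivAt
    rwa [mS_deriv] at this
  have h2 : HasDerivAt (fun mu => Dl mu ^ 2 - 4) 0 (mS : ℂ) := by
    have := (h1.fun_pow 2).sub_const (4 : ℂ)
    refine this.congr_deriv ?_
    simp
  have h3 : HasDerivAt sqD 0 (mS : ℂ) := by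
    have := h2.cpow_const (c := (((2 : ℕ) : ℂ)⁻¹)) slit
    refine this.congr_deriv ?_
    simp
  have h4 := (h1.add (h3.const_mul e)).div_const 2
  refine h4.congr_deriv ?_
  simp

theorem rt_sq_ne {e : ℂ} (he : e ^ 2 = 1) : rt e (mS : ℂ) ^ 2 ≠ 1 := by
  intro h
  have h1 := rt_eq he (mS : ℂ)
  have h2 : Dl (mS : ℂ) ^ 2 = 4 := by
    have h3 : Dl (mS : ℂ) * rt e mS = 2 := by linear_combination -h1 + h
    have h4 : Dl (mS : ℂ) ^ 2 * rt e mS ^ 2 = 4 := by
      have : Dl (mS : ℂ) ^ 2 * rt e mS ^ 2 = (Dl (mS : ℂ) * rt e mS) ^ 2 := by ring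
      rw [this, h3]; norm_num
    rw [h, mul_one] at h4
    exact h4
  have h5 := slit
  rw [h2, sub_self] at h5
  simp at h5

/-- an analytic family of Floquet eigenvectors -/
theorem eigvec {ρ : ℂ → ℂ} (hρ : ∀ mu, ρ mu ^ 2 - Dl mu * ρ mu + 1 = 0)
    (han : AnalyticAt ℂ ρ (mS : ℂ)) (hne : ρ (mS : ℂ) ^ 2 ≠ 1) :
    ∃ e1 e2 : ℂ → ℂ, AnalyticAt ℂ e1 (mS : ℂ) ∧ AnalyticAt ℂ e2 (mS : ℂ) ∧
      (e1 (mS : ℂ) ≠ 0 ∨ e2 (mS : ℂ) ≠ 0) ∧
      ∀ mu, HY mu (e1 mu, e2 mu) (2 * Real.pi) = ρ mu • (e1 mu, e2 mu) := by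
  have acc : AnalyticAt ℂ cc (mS : ℂ) := cc_diff.analyticAt _
  have acd : AnalyticAt ℂ cd (mS : ℂ) := cd_diff.analyticAt _
  have asc : AnalyticAt ℂ sc (mS : ℂ) := sc_diff.analyticAt _
  have asd : AnalyticAt ℂ sd (mS : ℂ) := sd_diff.analyticAt _
  by_cases h : ρ (mS : ℂ) - sd (mS : ℂ) ≠ 0 ∨ cd (mS : ℂ) ≠ 0
  · refine ⟨fun mu => ρ mu - sd mu, cd, han.sub asd, acd, h, fun mu => ?_⟩
    rw [mono]
    have h1 := hρ mu
    have h2 := det_one mu
    unfold Dl at h1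
    ext
    · simp only [Prod.smul_mk, smul_eq_mul]
      linear_combination -h1 - h2
    · simp only [Prod.smul_mk, smul_eq_mul]
      ring
  · push Not at h
    obtain ⟨h3, h4⟩ := h
    refine ⟨sc, fun mu => ρ mu - cc mu, asc, han.sub acc, ?_, fun mu => ?_⟩
    · by_contra h5
      push Not at h5
      obtain ⟨h5, h6⟩ := h5
      apply hne
      have h2 := det_one (mS : ℂ)
      have e1 : sd (mS : ℂ) = ρ mS := by linear_combination -h3
      have e2 : cc (mS : ℂ) = ρ mS := by linear_combination -h6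
      rw [e1, e2, h4, zero_mul, sub_zero] at h2
      linear_combination h2
    · rw [mono]
      have h1 := hρ mu
      have h2 := det_one mu
      unfold Dl at h1
      ext
      · simp only [Prod.smul_mk, smul_eq_mul]
        ring
      · simp only [Prod.smul_mk, smul_eq_mul]
        linear_combination -h1 - h2

theorem rt_ne_neg {e : ℂ} (he : e ^ 2 = 1) :
    ∀ᶠ s in 𝓝[≠] (0 : ℂ), rt e (mS + s) ≠ rt e (mS + -s) := by
  have h0 : AnalyticAt ℂ (rt e) ((mS : ℂ) + 0) := by rw [add_zero]; exact rt_an e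
  have h0' : AnalyticAt ℂ (rt e) ((mS : ℂ) + -0) := by rw [neg_zero]; exact h0
  have a1 : AnalyticAt ℂ (fun s : ℂ => rt e (mS + s)) 0 :=
    h0.comp (f := fun s : ℂ => (mS : ℂ) + s) (analyticAt_const.add analyticAt_id)
  have a2 : AnalyticAt ℂ (fun s : ℂ => rt e (mS + -s)) 0 :=
    h0'.comp (f := fun s : ℂ => (mS : ℂ) + -s) (analyticAt_const.add analyticAt_id.neg)
  rcases (a1.sub a2).eventually_eq_zero_or_eventually_ne_zero with h | h
  · exfalso
    apply not_even mS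
    have hD : ∀ mu, Dl mu = rt e mu + (rt e mu)⁻¹ := by
      intro mu
      have h1 := rt_eq he mu
      have h2 : rt e mu ≠ 0 := by
        intro h3
        rw [h3] at h1
        norm_num at h1
      field_simp
      linear_combination -h1
    have h1 : (fun s : ℂ => Dl (mS + s)) =ᶠ[𝓝 0] fun s => Dl (mS - s) := by
      filter_upwards [h] with s hs
      have h3 : rt e (mS + s) = rt e (mS + -s) := sub_eq_zero.1 hs
      rw [hD, hD (mS - s), h3, sub_eq_add_neg]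
    have d1 : AnalyticOnNhd ℂ (fun s : ℂ => Dl (mS + s)) univ := fun s _ =>
      (Dl_an _).comp (f := fun s : ℂ => (mS : ℂ) + s) (analyticAt_const.add analyticAt_id)
    have d2 : AnalyticOnNhd ℂ (fun s : ℂ => Dl (mS - s)) univ := fun s _ =>
      (Dl_an _).comp (f := fun s : ℂ => (mS : ℂ) - s) (analyticAt_const.sub analyticAt_id)
    have := d1.eq_of_eventuallyEq d2 h1
    intro s
    exact congrFun this s
  · filter_upwards [h] with s hs
    exact sub_ne_zero.1 hs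

theorem shift_deriv {f : ℂ → ℂ} {f' : ℂ} (h : HasDerivAt f f' (mS : ℂ)) :
    HasDerivAt (fun s : ℂ => f (mS + s)) f' 0 := by
  have h0 : HasDerivAt f f' ((mS : ℂ) + 0) := by rw [add_zero]; exact h
  exact h0.comp_const_add (mS : ℂ) 0

/-- derivative and independence of the jets -/
theorem jets {e1 e2 : ℂ → ℂ} (h1 : AnalyticAt ℂ e1 (mS : ℂ)) (h2 : AnalyticAt ℂ e2 (mS : ℂ))
    (hne : e1 (mS : ℂ) ≠ 0 ∨ e2 (mS : ℂ) ≠ 0) :
    ∃ u1 : V4, HasDerivAt (fun s : ℂ => jet (mS + s) 0 (e1 (mS + s), e2 (mS + s))) u1 0 ∧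
      ∀ x y : ℂ, x • jet (mS + 0) 0 (e1 (mS + 0), e2 (mS + 0)) + y • u1 = 0 → x = 0 ∧ y = 0 := by
  have d1 := shift_deriv h1.differentiableAt.hasDerivAt
  have d2 := shift_deriv h2.differentiableAt.hasDerivAt
  have dm : HasDerivAt (fun s : ℂ => (Q 0 : ℂ) + ((mS : ℂ) + s)) 1 0 :=
    ((hasDerivAt_id (0 : ℂ)).const_add (mS : ℂ)).const_add (Q 0 : ℂ)
  set A := deriv e1 (mS : ℂ)
  set B := deriv e2 (mS : ℂ)
  refine ⟨![A, B, 1 * e1 (mS + 0) + ((Q 0 : ℂ) + (mS + 0)) * A,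
    (q1 0 : ℂ) * A + (1 * e2 (mS + 0) + ((Q 0 : ℂ) + (mS + 0)) * B)], ?_, ?_⟩
  · rw [hasDerivAt_pi]
    intro i
    fin_cases i
    · exact d1
    · exact d2
    · exact dm.mul d1
    · exact (d1.const_mul (q1 0 : ℂ)).add (dm.mul d2)
  · intro x y hxy
    have k0 := congrFun hxy 0
    have k1 := congrFun hxy 1
    have k2 := congrFun hxy 2
    have k3 := congrFun hxy 3
    simp only [jet, Pi.add_apply, Pi.smul_apply, smul_eq_mul, Pi.zero_apply, Matrix.cons_val_zero,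
      Matrix.cons_val_one, Matrix.cons_val, add_zero] at k0 k1 k2 k3
    have y1 : y * e1 mS = 0 := by linear_combination k2 - ((Q 0 : ℂ) + mS) * k0
    have y2 : y * e2 mS = 0 := by
      linear_combination k3 - ((Q 0 : ℂ) + mS) * k1 - (q1 0 : ℂ) * k0
    have hy : y = 0 := by
      rcases hne with h | h
      · exact (mul_eq_zero.1 y1).resolve_right h
      · exact (mul_eq_zero.1 y2).resolve_right h
    rw [hy, zero_mul, add_zero] at k0 k1
    refine ⟨?_, hy⟩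
    rcases hne with h | h
    · exact (mul_eq_zero.1 k0).resolve_right h
    · exact (mul_eq_zero.1 k1).resolve_right h

theorem exists_loc : ∃ (b : ℂ → ℂ) (u w : ℂ → V4) (u1 w1 : V4),
    Loc (TT mS) (fun s => rt 1 (mS + s)) b u w u1 w1 := by
  have h1 : (1 : ℂ) ^ 2 = 1 := one_pow 2
  have h2 : (-1 : ℂ) ^ 2 = 1 := by norm_num
  obtain ⟨e1, e2, ha, hb, hc, hd⟩ := eigvec (rt_eq h1) (rt_an 1) (rt_sq_ne h1)
  obtain ⟨f1, f2, ga, gb, gc, gd⟩ := eigvec (rt_eq h2) (rt_an (-1)) (rt_sq_ne h2)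
  obtain ⟨u1, hu, hu'⟩ := jets ha hb hc
  obtain ⟨w1, hw, hw'⟩ := jets ga gb gc
  refine ⟨fun s => rt (-1) (mS + s), fun s => jet (mS + s) 0 (e1 (mS + s), e2 (mS + s)),
    fun s => jet (mS + s) 0 (f1 (mS + s), f2 (mS + s)), u1, w1, ?_⟩
  have h0 : AnalyticAt ℂ (rt 1) ((mS : ℂ) + 0) := by rw [add_zero]; exact rt_an 1
  refine ⟨TT_cont mS, h0.comp (f := fun s : ℂ => (mS : ℂ) + s)
    (analyticAt_const.add analyticAt_id), (shift_deriv (rt_deriv (-1))).continuousAt,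
    shift_deriv (rt_deriv 1), shift_deriv (rt_deriv (-1)), hu, hw, fun s => ?_, fun s => ?_, ?_,
    rt_ne_neg h1, rt_ne_neg h2, hu', hw'⟩
  · have := TT_eig (m := mS) (hd (mS + s))
    rwa [add_sub_cancel_left] at this
  · have := TT_eig (m := mS) (gd (mS + s))
    rwa [add_sub_cancel_left] at this
  · simp only [add_zero]
    intro h
    have h3 : sqD mS = 0 := by
      unfold rt at h
      linear_combination h
    have h4 := sqD_sq (mS : ℂ)
    have h5 := slit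
    rw [← h4, h3, zero_pow two_ne_zero] at h5
    simp at h5

end Pool.Agent.H751R3.Fq
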